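import Pool.Agent.Q14.LQ.Lan

set_option autoImplicit false

/-! Project LQ (helper253), job LA: the abstract argument. -/

namespace Pool.Agent.Q14.LQ

open MeasureTheory Complex Filter Topology Set ProbabilityTheory

theorem int_of_bound {g : ℝ → ℝ} (hg : Continuous g) (hg0 : ∀ u, 0 ≤ g u) {C : ℝ}
    (h : ∀ᶠ U : ℝ in atTop, ∫ u in (0 : ℝ)..U, g u ≤ C * U) {σ : ℝ} (hσ : 0 < σ) :
    IntegrableOn (fun u => g u * Real.exp (-(σ * u))) (Ioi 0) := by
  obtain ⟨U0, hU0⟩ := (h.and (eventually_ge_atTop 1)).exists_forall_of_atTop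
  set G : ℝ → ℝ := fun U => ∫ u in (0 : ℝ)..U, g u with hG
  have hmono : ∀ a b : ℝ, a ≤ b → G a ≤ G b := by
    intro a b hab
    have h1 : G b - G a = ∫ u in a..b, g u :=
      intervalIntegral.integral_interval_sub_left (hg.intervalIntegrable _ _) (hg.intervalIntegrable _ _)
    have h2 : 0 ≤ ∫ u in a..b, g u := intervalIntegral.integral_nonneg hab fun u _ => hg0 u
    linarith
  set U1 : ℝ := max U0 1 with hU1
  have hU1' : 1 ≤ U1 := le_max_right _ _
  set K : ℝ := |C| * U1 with hK
  have hK0 : 0 ≤ K := by positivity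
  have hbd : ∀ u : ℝ, 0 ≤ u → G u ≤ K * (1 + u) := by
    intro u hu
    rcases le_total U1 u with h1 | h1
    · have h2 := (hU0 u ((le_max_left _ _).trans h1)).1
      have h3 : C * u ≤ |C| * u := mul_le_mul_of_nonneg_right (le_abs_self _) hu
      have h4 : |C| * u ≤ K * (1 + u) := by
        rw [hK, mul_assoc]
        refine mul_le_mul_of_nonneg_left ?_ (abs_nonneg _)
        nlinarith
      exact h2.trans (h3.trans h4)
    · have h2 := (hU0 U1 (le_max_left _ _)).1
      have h3 : C * U1 ≤ |C| * U1 := mul_le_mul_of_nonneg_right (le_abs_self _) (by linarith)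
      have h4 : K ≤ K * (1 + u) := by nlinarith
      exact (hmono _ _ h1).trans (h2.trans (h3.trans h4))
  have hexp : ∀ u : ℝ, 0 ≤ u → (1 + u) * Real.exp (-(σ * u)) ≤ (1 + 2 / σ) * Real.exp (-(σ / 2) * u) := by
    intro u hu
    have e : Real.exp (-(σ * u)) = Real.exp (-(σ / 2) * u) * Real.exp (-(σ / 2) * u) := by
      rw [← Real.exp_add]
      congr 1
      ring
    rw [e]
    have h1 : (1 + u) ≤ (1 + 2 / σ) * Real.exp (σ / 2 * u) := by
      have h2 := Real.add_one_le_exp (σ / 2 * u)
      have h3 : u = 2 / σ * (σ / 2 * u) := by field_simp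
      have h4 : 1 ≤ Real.exp (σ / 2 * u) := Real.one_le_exp (by positivity)
      have h5 : 2 / σ * (σ / 2 * u) ≤ 2 / σ * Real.exp (σ / 2 * u) :=
        mul_le_mul_of_nonneg_left (by linarith) (by positivity)
      rw [← h3] at h5
      linarith
    have h6 : Real.exp (σ / 2 * u) * Real.exp (-(σ / 2) * u) = 1 := by
      rw [← Real.exp_add]
      simp
    calc (1 + u) * (Real.exp (-(σ / 2) * u) * Real.exp (-(σ / 2) * u)) ≤
          ((1 + 2 / σ) * Real.exp (σ / 2 * u)) * (Real.exp (-(σ / 2) * u) * Real.exp (-(σ / 2) * u)) :=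
          mul_le_mul_of_nonneg_right h1 (by positivity)
      _ = (1 + 2 / σ) * (Real.exp (σ / 2 * u) * Real.exp (-(σ / 2) * u)) * Real.exp (-(σ / 2) * u) := by ring
      _ = _ := by rw [h6, mul_one]
  have hGd : ∀ u : ℝ, HasDerivAt G (g u) u := fun u =>
    intervalIntegral.integral_hasDerivAt_right (hg.intervalIntegrable _ _)
      (hg.stronglyMeasurableAtFilter _ _) hg.continuousAt
  have hGc : Continuous G := continuous_iff_continuousAt.2 fun u => (hGd u).continuousAt
  refine integrableOn_Ioi_of_intervalIntegral_norm_bounded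
    (K * (1 + 2 / σ) + σ * (K * (1 + 2 / σ) * (2 / σ))) 0 (b := fun U : ℝ => U) (l := atTop) (fun U => ?_) tendsto_id ?_
  · exact (hg.mul (by fun_prop)).integrableOn_Ioc
  · filter_upwards [eventually_ge_atTop 0] with U hU
    have e1 : ∫ u in (0 : ℝ)..U, ‖g u * Real.exp (-(σ * u))‖ = ∫ u in (0 : ℝ)..U, Real.exp (-(σ * u)) * g u := by
      refine intervalIntegral.integral_congr fun u _ => ?_
      rw [Real.norm_of_nonneg (mul_nonneg (hg0 u) (Real.exp_pos _).le), mul_comm]
    rw [e1]
    have hd : ∀ u : ℝ, HasDerivAt (fun u : ℝ => Real.exp (-(σ * u))) (Real.exp (-(σ * u)) * (-(σ * 1))) u := by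
      intro u
      exact (((hasDerivAt_id u).const_mul σ).neg).exp
    rw [intervalIntegral.integral_mul_deriv_eq_deriv_mul (fun u _ => hd u) (fun u _ => hGd u)
      ((by fun_prop : Continuous fun u : ℝ => Real.exp (-(σ * u)) * (-(σ * 1))).intervalIntegrable _ _)
      (hg.intervalIntegrable _ _)]
    have e2 : G 0 = 0 := by
      rw [hG]
      simp
    rw [e2, mul_zero, sub_zero]
    have e3 : ∫ u in (0 : ℝ)..U, Real.exp (-(σ * u)) * (-(σ * 1)) * G u =
        -(σ * ∫ u in (0 : ℝ)..U, Real.exp (-(σ * u)) * G u) := by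
      rw [← intervalIntegral.integral_const_mul, ← intervalIntegral.integral_neg]
      refine intervalIntegral.integral_congr fun u _ => ?_
      ring
    rw [e3, sub_neg_eq_add]
    have b1 : ∀ u : ℝ, 0 ≤ u → Real.exp (-(σ * u)) * G u ≤ (K * (1 + 2 / σ)) * Real.exp (-(σ / 2) * u) := by
      intro u hu
      calc Real.exp (-(σ * u)) * G u ≤ Real.exp (-(σ * u)) * (K * (1 + u)) :=
            mul_le_mul_of_nonneg_left (hbd u hu) (Real.exp_pos _).le
        _ = K * ((1 + u) * Real.exp (-(σ * u))) := by ring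
        _ ≤ K * ((1 + 2 / σ) * Real.exp (-(σ / 2) * u)) := mul_le_mul_of_nonneg_left (hexp u hu) hK0
        _ = _ := by ring
    have b2 : Real.exp (-(σ * U)) * G U ≤ K * (1 + 2 / σ) := by
      refine (b1 U hU).trans ?_
      have : Real.exp (-(σ / 2) * U) ≤ 1 := Real.exp_le_one_iff.2 (by nlinarith)
      have h2 : 0 ≤ K * (1 + 2 / σ) := by positivity
      nlinarith
    have b3 : ∫ u in (0 : ℝ)..U, Real.exp (-(σ * u)) * G u ≤ K * (1 + 2 / σ) * (2 / σ) := by
      have h1 : ∫ u in (0 : ℝ)..U, Real.exp (-(σ * u)) * G u ≤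
          ∫ u in (0 : ℝ)..U, (K * (1 + 2 / σ)) * Real.exp (-(σ / 2) * u) := by
        refine intervalIntegral.integral_mono_on hU ?_ ?_ fun u hu => b1 u hu.1
        · exact ((by fun_prop : Continuous fun u : ℝ => Real.exp (-(σ * u))).mul hGc).intervalIntegrable _ _
        · exact (by fun_prop : Continuous fun u : ℝ =>
            (K * (1 + 2 / σ)) * Real.exp (-(σ / 2) * u)).intervalIntegrable _ _
      refine h1.trans ?_
      have h2 : ∫ u in Ioi (0 : ℝ), Real.exp (-(σ / 2) * u) = 2 / σ := by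
        have h3 := integral_exp_mul_Ioi (a := -(σ / 2)) (by linarith) 0
        rw [h3]
        have : σ ≠ 0 := hσ.ne'
        simp
      rw [intervalIntegral.integral_const_mul]
      refine mul_le_mul_of_nonneg_left ?_ (by positivity)
      rw [intervalIntegral.integral_of_le hU, ← h2]
      refine setIntegral_mono_set (integrableOn_exp_mul_Ioi (by linarith) 0)
        (Eventually.of_forall fun u => (Real.exp_pos _).le) (Eventually.of_forall ?_)
      exact Ioc_subset_Ioi_self
    have b4 := mul_le_mul_of_nonneg_left b3 hσ.le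
    linarith

/-- the Laplace transform -/
noncomputable def lp (f : ℝ → ℝ) (z : ℂ) : ℂ := ∫ u in Ioi (0 : ℝ), (f u : ℂ) * cexp (-z * u)

theorem lp_norm (f : ℝ → ℝ) (s : ℂ) (w : ℝ) : ‖(f w : ℂ) * cexp (-s * w)‖ = |f w| * Real.exp (-(s.re * w)) := by
  rw [norm_mul, Complex.norm_exp, Complex.norm_real, Real.norm_eq_abs]
  simp

theorem lp_int {f : ℝ → ℝ} (hf : Continuous f) {s : ℂ}
    (h : IntegrableOn (fun u => |f u| * Real.exp (-(s.re * u))) (Ioi 0)) :
    IntegrableOn (fun u : ℝ => (f u : ℂ) * cexp (-s * u)) (Ioi 0) := by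
  refine Integrable.mono' h ?_ (Eventually.of_forall fun u => (lp_norm f s u).le)
  exact ((Complex.continuous_ofReal.comp hf).mul (by fun_prop)).aestronglyMeasurable

theorem lp_diff {f : ℝ → ℝ} (hf : Continuous f) {a : ℝ}
    (h : ∀ σ : ℝ, a < σ → IntegrableOn (fun u => |f u| * Real.exp (-(σ * u))) (Ioi 0)) {z : ℂ} (hz : a < z.re) :
    DifferentiableAt ℂ (lp f) z := by
  set r := (z.re - a) / 2 with hr
  have hr0 : 0 < r := by rw [hr]; linarith
  have hbound : IntegrableOn (fun w : ℝ => (2 / r) * (|f w| * Real.exp (-((z.re - 3 * r / 2) * w)))) (Ioi 0) :=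
    (h _ (by rw [hr]; linarith)).const_mul _
  have hfc : Continuous (fun v : ℝ => (f v : ℂ)) := Complex.continuous_ofReal.comp hf
  have key := hasDerivAt_integral_of_dominated_loc_of_deriv_le (𝕜 := ℂ) (μ := volume.restrict (Ioi (0:ℝ)))
    (F := fun z v => (f v : ℂ) * cexp (-z * v))
    (F' := fun z v => (f v : ℂ) * (-(v : ℂ) * cexp (-z * v)))
    (x₀ := z) (s := Metric.ball z r)
    (bound := fun w => (2 / r) * (|f w| * Real.exp (-((z.re - 3 * r / 2) * w))))
    (Metric.ball_mem_nhds z hr0)
    (Eventually.of_forall fun w => (hfc.mul (by fun_prop)).aestronglyMeasurable)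
    (lp_int hf (h _ hz))
    (hfc.mul (by fun_prop)).aestronglyMeasurable
    ((ae_restrict_iff' measurableSet_Ioi).2 (Eventually.of_forall fun v hv w hw => by
      have hv0 : 0 < v := hv
      have hw1 : z.re - r < w.re := by
        rw [Metric.mem_ball, dist_eq_norm] at hw
        have h2 := (Complex.abs_re_le_norm (w - z)).trans_lt hw
        rw [Complex.sub_re] at h2
        linarith [neg_abs_le (w.re - z.re)]
      rw [norm_mul, norm_mul, norm_neg, Complex.norm_real, Complex.norm_real, Real.norm_eq_abs, Real.norm_eq_abs,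
        abs_of_pos hv0, Complex.norm_exp]
      have e1 : (-w * (v:ℂ)).re = -(w.re * v) := by simp
      rw [e1]
      have h3 : v ≤ 2 / r * Real.exp (r / 2 * v) := by
        have h4 := Real.add_one_le_exp (r / 2 * v)
        have h5 : v = 2 / r * (r / 2 * v) := by field_simp
        calc v = 2 / r * (r / 2 * v) := h5
          _ ≤ _ := by gcongr; linarith
      have h6 : Real.exp (-(w.re * v)) ≤ Real.exp (-((z.re - r) * v)) := by
        refine Real.exp_le_exp.2 ?_
        nlinarith
      calc |f v| * (v * Real.exp (-(w.re * v))) ≤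
            |f v| * ((2 / r * Real.exp (r / 2 * v)) * Real.exp (-((z.re - r) * v))) := by
            gcongr
        _ = (2 / r) * (|f v| * (Real.exp (r / 2 * v) * Real.exp (-((z.re - r) * v)))) := by ring
        _ = _ := by
          rw [← Real.exp_add]
          congr 3
          ring))
    hbound
    (Eventually.of_forall fun v w _ => by
      have h1 : HasDerivAt (fun w : ℂ => -w * (v:ℂ)) (-1 * (v:ℂ)) w :=
        ((hasDerivAt_id w).neg).mul_const (v:ℂ)
      have h2 := h1.cexp.const_mul (f v : ℂ)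
      have e : (f v : ℂ) * (-(v : ℂ) * cexp (-w * v)) = (f v : ℂ) * (cexp (-w * v) * (-1 * (v : ℂ))) := by
        ring
      rw [e]
      exact h2)
  exact key.2.differentiableAt

theorem exp_mono_int {g : ℝ → ℝ} (hg : Continuous g) (hg0 : ∀ u, 0 ≤ g u) {σ τ : ℝ} (hστ : σ ≤ τ)
    (h : IntegrableOn (fun u => g u * Real.exp (-(σ * u))) (Ioi 0)) :
    IntegrableOn (fun u => g u * Real.exp (-(τ * u))) (Ioi 0) := by
  refine Integrable.mono' h ((hg.mul (by fun_prop)).aestronglyMeasurable) ?_
  refine (ae_restrict_iff' measurableSet_Ioi).2 (Eventually.of_forall fun u hu => ?_)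
  have hu0 : 0 < u := hu
  rw [Real.norm_of_nonneg (mul_nonneg (hg0 u) (Real.exp_pos _).le)]
  refine mul_le_mul_of_nonneg_left (Real.exp_le_exp.2 ?_) (hg0 u)
  nlinarith

/-- the Landau theorem for a nonnegative continuous function -/
theorem landau_lp {g : ℝ → ℝ} (hg : Continuous g) (hg0 : ∀ u, 0 ≤ g u) {c c' R r : ℝ} (hc : c' < c)
    (h : IntegrableOn (fun u => g u * Real.exp (-(c' * u))) (Ioi 0)) {G : ℂ → ℂ}
    (hG : DifferentiableOn ℂ G (Metric.ball (c : ℂ) R))
    (heq : ∀ t : ℝ, c' < t → |t - c| < R → G t = lp g t) (hr0 : 0 ≤ r) (hr : r < R) :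
    IntegrableOn (fun u => g u * Real.exp (-((c - r) * u))) (Ioi 0) := by
  set μ : Measure ℝ := (volume.restrict (Ioi (0 : ℝ))).withDensity (fun u => ENNReal.ofReal (g u)) with hμ
  have hmeas : Measurable (fun u => ENNReal.ofReal (g u)) := hg.measurable.ennreal_ofReal
  have hmem : ∀ t : ℝ, t ∈ integrableExpSet (fun u : ℝ => u) μ ↔
      IntegrableOn (fun u => g u * Real.exp (-(-t * u))) (Ioi 0) := by
    intro t
    show Integrable (fun u => Real.exp (t * u)) μ ↔ _
    rw [hμ, integrable_withDensity_iff_integrable_smul' hmeas (Eventually.of_forall fun u => ENNReal.ofReal_lt_top)]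
    have e : (fun u : ℝ => (ENNReal.ofReal (g u)).toReal • Real.exp (t * u)) =
        fun u : ℝ => g u * Real.exp (-(-t * u)) := by
      funext u
      rw [ENNReal.toReal_ofReal (hg0 u), smul_eq_mul]
      congr 2
      ring
    rw [e]
    rfl
  have hint : -c ∈ interior (integrableExpSet (fun u : ℝ => u) μ) := by
    rw [mem_interior]
    refine ⟨Iio (-c'), fun t ht => ?_, isOpen_Iio, by simpa using hc⟩
    rw [hmem]
    have ht' : t < -c' := ht
    exact exp_mono_int hg hg0 (by linarith) h
  have hlp : ∀ t : ℝ, (lp g t).re = mgf (fun u : ℝ => u) μ (-t) := by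
    intro t
    have e1 : lp g t = ((∫ u in Ioi (0 : ℝ), g u * Real.exp (-t * u) : ℝ) : ℂ) := by
      unfold lp
      rw [← integral_complex_ofReal]
      refine setIntegral_congr_fun measurableSet_Ioi fun u _ => ?_
      push_cast
      rfl
    rw [e1, Complex.ofReal_re]
    unfold mgf
    rw [hμ, integral_withDensity_eq_integral_toReal_smul hmeas (Eventually.of_forall fun u => ENNReal.ofReal_lt_top)]
    refine setIntegral_congr_fun measurableSet_Ioi fun u _ => ?_
    simp only
    rw [ENNReal.toReal_ofReal (hg0 u), smul_eq_mul]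
  have hR : 0 < R := by linarith
  have key := landau_mgf (μ := μ) (Y := fun u : ℝ => u) (v := -c) (R := R) (r := r) (G := fun z => G (-z)) ?_ hint ?_ ?_
    hr0 hr
  · rw [hmem] at key
    have e : -(-c + r) = c - r := by ring
    rwa [e] at key
  · rw [hμ]
    refine (withDensity_absolutelyContinuous _ _).ae_le ?_
    exact (ae_restrict_iff' measurableSet_Ioi).2 (Eventually.of_forall fun u hu => le_of_lt hu)
  · intro z hz
    have hz' : -z ∈ Metric.ball (c : ℂ) R := by
      rw [Metric.mem_ball, dist_eq_norm] at hz ⊢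
      rw [← norm_neg]
      push_cast at hz
      have e : -(-z - (c : ℂ)) = z - -(c : ℂ) := by ring
      rwa [e]
    have h1 : DifferentiableAt ℂ G (-z) := (hG _ hz').differentiableAt (Metric.isOpen_ball.mem_nhds hz')
    exact (DifferentiableAt.comp z h1 (by fun_prop : DifferentiableAt ℂ (fun z : ℂ => -z) z)).differentiableWithinAt
  · have h1 : ∀ᶠ t : ℝ in 𝓝 (-c), t < -c' := gt_mem_nhds (by linarith)
    have h2 : ∀ᶠ t : ℝ in 𝓝 (-c), |t - -c| < R := by
      filter_upwards [Metric.ball_mem_nhds (-c) hR] with t ht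
      rwa [Metric.mem_ball, Real.dist_eq] at ht
    filter_upwards [h1, h2] with t h3 h4
    have h5 := heq (-t) (by linarith) (by
      rw [← abs_neg]
      have e : -(-t - c) = t - -c := by ring
      rwa [e])
    have h6 := hlp (-t)
    rw [neg_neg] at h6
    rw [← h6, ← h5]
    push_cast
    rfl

end Pool.Agent.Q14.LQ
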