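import Pool.Agent.Q14.LQ.Lt

set_option autoImplicit false

/-! Project LQ (helper253), job CL: orthogonality of the characters, and continuity. -/

namespace Pool.Agent.Q14.LQ

open MeasureTheory Complex Filter Topology Set
open DirichletCharacter (LFunction completedLFunction)
open Pool.Agent.Q253.LQ

/-- the coefficients of the class of `1` -/
noncomputable def be (q : ℕ) (n : ℕ) : ℂ :=
  if n % q = 1 % q then ((ArithmeticFunction.vonMangoldt n * Real.exp (-(Real.log n / 2)) : ℝ) : ℂ) else 0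

theorem HB_be (q : ℕ) : HB (be q) := by
  refine HB_of_le (C := 1) fun n => ?_
  have h0 : 0 ≤ ArithmeticFunction.vonMangoldt n * Real.exp (-(Real.log n / 2)) :=
    mul_nonneg ArithmeticFunction.vonMangoldt_nonneg (Real.exp_pos _).le
  unfold be
  split_ifs
  · rw [Complex.norm_real, Real.norm_of_nonneg h0, one_mul]
  · rw [norm_zero, one_mul]
    exact h0

theorem EE_eq (q : ℕ) (u : ℝ) :
    ((EE q u : ℝ) : ℂ) = (Nat.totient q : ℂ) * ES (be q) u - ((8 / 3 * Real.exp (u / 2) : ℝ) : ℂ) := by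
  unfold EE ES
  rw [Complex.ofReal_sub, Complex.ofReal_mul, Complex.ofReal_tsum, Complex.ofReal_natCast]
  congr 2
  refine tsum_congr fun n => ?_
  unfold be
  split_ifs
  · push_cast
    ring
  · simp

theorem EE_cont (q : ℕ) : Continuous (EE q) := by
  have h1 : Continuous (fun u : ℝ => ((Nat.totient q : ℂ) * ES (be q) u - ((8 / 3 * Real.exp (u / 2) : ℝ) : ℂ)).re) := by
    refine Complex.continuous_re.comp ((continuous_const.mul (ES_cont (HB_be q))).sub ?_)
    fun_prop
  have e : EE q = fun u : ℝ => ((Nat.totient q : ℂ) * ES (be q) u - ((8 / 3 * Real.exp (u / 2) : ℝ) : ℂ)).re := by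
    funext u
    rw [← EE_eq, Complex.ofReal_re]
  rw [e]
  exact h1

variable {q : ℕ} [NeZero q]

theorem sum_bc (n : ℕ) : ∑ χ : DirichletCharacter ℂ q, bc χ n = (Nat.totient q : ℂ) * be q n := by
  have h := DirichletCharacter.sum_char_inv_mul_char_eq (n := q) ℂ (a := 1) isUnit_one (n : ZMod q)
  have h2 : ((1 : ZMod q) = (n : ZMod q)) ↔ n % q = 1 % q := by
    rw [eq_comm, show (1 : ZMod q) = ((1 : ℕ) : ZMod q) by simp, ZMod.natCast_eq_natCast_iff']
  have h3 : ∑ χ : DirichletCharacter ℂ q, χ (n : ZMod q) =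
      if n % q = 1 % q then (Nat.totient q : ℂ) else 0 := by
    rw [← if_congr h2 rfl rfl, ← h]
    refine Finset.sum_congr rfl fun χ _ => ?_
    rw [ZMod.inv_one, map_one, one_mul]
  unfold bc be
  rw [← Finset.sum_mul, ← Finset.mul_sum, h3]
  split_ifs
  · push_cast
    ring
  · simp

theorem EE_sum (u : ℝ) : ((EE q u : ℝ) : ℂ) = ∑ χ : DirichletCharacter ℂ q, EC χ u := by
  classical
  simp_rw [EC_eq]
  rw [Finset.sum_sub_distrib, EE_eq]
  congr 1
  · unfold ES
    rw [← Summable.tsum_finsetSum fun χ _ => (ES_summable (HB_bc χ) u).of_norm, ← tsum_mul_left]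
    refine tsum_congr fun n => ?_
    rw [← Finset.sum_mul, sum_bc, mul_assoc]
  · rw [Finset.sum_ite_eq' Finset.univ (1 : DirichletCharacter ℂ q)]
    simp

/-- LQ-CL -/
theorem t_CL : S_CL := fun q _ => ⟨EE_cont q, EE_sum⟩

end Pool.Agent.Q14.LQ
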