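import Pool.Agent.Q14.LQ.EF4

set_option autoImplicit false

/-! Project LQ (helper253), job EF: the explicit formula. -/

namespace Pool.Agent.Q14.LQ

open MeasureTheory Complex Filter Topology Set
open DirichletCharacter (LFunction completedLFunction)
open Pool.Agent.Q253.LQ

theorem TT_add (f g : ℂ → ℂ) (z : ℂ) : TT (fun z => f z + g z) z = TT f z + TT g z := by
  unfold TT
  ring

theorem TT_smul (c : ℂ) (f : ℂ → ℂ) (z : ℂ) : TT (fun z => c * f z) z = c * TT f z := by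
  unfold TT
  ring

theorem bk_pos {a : ℝ} (ha : 0 ≤ a) (k : ℕ) : 1 / 2 ≤ bk a k := by
  unfold bk
  have : (0 : ℝ) ≤ k := Nat.cast_nonneg k
  linarith

theorem bk_ne {a : ℝ} (ha : a = 0 ∨ a = 1) (k : ℕ) : bk a k - 1 ≠ 0 := by
  intro h
  unfold bk at h
  rcases ha with rfl | rfl
  · have h1 : (4 * k : ℝ) = 1 := by linarith
    have h2 : ((4 * k : ℕ) : ℝ) = ((1 : ℕ) : ℝ) := by push_cast; exact h1
    have h3 : 4 * k = 1 := by exact_mod_cast h2
    omega
  · have h1 : (4 * k : ℝ) + 1 = 0 := by linarith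
    have h2 : (0 : ℝ) ≤ k := Nat.cast_nonneg k
    linarith

section main

variable {q : ℕ} [NeZero q] (χ : DirichletCharacter ℂ q) [NeZero χ.conductor]

/-- the explicit formula for the primitive character -/
theorem formula (hPF : S_PF) (hχ : GRHc χ) : ∃ (A B : ℂ) (a : ℝ), 0 ≤ a ∧ a ≤ 1 ∧ ∀ u : ℝ, 0 < u →
    ES (bc χ.primitiveCharacter) u - P1 χ * (8 / 3 * cexp (1 / 2 * u)) + Zs χ u =
      A * cexp (-1 * u) + B * cexp (-(1 / 2) * u) + XS (dk a) (fun k => ((bk a k : ℝ) : ℂ)) u := by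
  obtain ⟨a, K, ha, hsplit⟩ := Xi_split χ
  have ha0 : 0 ≤ a := by rcases ha with rfl | rfl <;> norm_num
  have ha1 : a ≤ 1 := by rcases ha with rfl | rfl <;> norm_num
  obtain ⟨K', hK'⟩ := TT_GR ha0 ha1 (bk_ne ha)
  obtain ⟨hs, _, _⟩ := hPF q χ hχ
  set ψ := χ.primitiveCharacter with hψ
  set A : ℂ := K + K' + (2 * ((Xi χ 1).re : ℂ) - Xi χ 1) - P1 χ * (8 / 3) with hA
  refine ⟨A, P1 χ * (8 / 3), a, ha0, ha1, fun u hu => ?_⟩
  have hl : ∀ k : ℕ, 0 ≤ (((bk a k : ℝ) : ℂ)).re := fun k => by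
    rw [Complex.ofReal_re]
    linarith [bk_pos ha0 k]
  set g : ℝ → ℂ := fun u => (ES (bc ψ) u - P1 χ * (8 / 3 * cexp (1 / 2 * u)) + Zs χ u) -
    (A * cexp (-1 * u) + P1 χ * (8 / 3) * cexp (-(1 / 2) * u) + XS (dk a) (fun k => ((bk a k : ℝ) : ℂ)) u) with hg
  have hgc : ContinuousOn g (Ioi 0) := by
    refine ContinuousOn.sub (ContinuousOn.add ?_ (Zs_cont hs)) (ContinuousOn.add ?_ (XS_cont hl (dk_sum ha0)))
    · exact ((ES_cont (HB_bc ψ)).sub (by fun_prop)).continuousOn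
    · exact (by fun_prop : Continuous fun u : ℝ => A * cexp (-1 * u) + P1 χ * (8 / 3) * cexp (-(1 / 2) * u)).continuousOn
  -- the transforms
  have key : ∀ z : ℂ, 1 < z.re → IntegrableOn (fun u : ℝ => g u * cexp (-z * u)) (Ioi 0) ∧
      ∫ u in Ioi (0 : ℝ), g u * cexp (-z * u) = 0 := by
    intro z hz
    have h1 : z ≠ 1 := by
      rintro rfl
      simp at hz
    have h1' : 1 - z ≠ 0 := sub_ne_zero.2 (Ne.symm h1)
    have h2' : 1 + z ≠ 0 := by
      intro h
      have := congrArg Complex.re h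
      simp at this
      linarith
    have h3' : -(1 / 2) + z ≠ 0 := by
      intro h
      have := congrArg Complex.re h
      rw [Complex.add_re, Complex.neg_re, half_re'] at this
      simp at this
      linarith
    have h4' : 1 / 2 + z ≠ 0 := by
      intro h
      have := congrArg Complex.re h
      rw [Complex.add_re, half_re'] at this
      simp at this
      linarith
    have i1 := LT_intble (HB_bc ψ) (z := z) (by linarith)
    have j1 := LT_ES (HB_bc ψ) (z := z) (by linarith) h1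
    have iexp : ∀ b : ℂ, 0 < (b + z).re → IntegrableOn (fun u : ℝ => cexp (-b * u) * cexp (-z * u)) (Ioi 0) ∧
        ∫ u in Ioi (0 : ℝ), cexp (-b * u) * cexp (-z * u) = 1 / (b + z) := by
      intro b hb
      have e1 : ∀ u : ℝ, cexp (-b * u) * cexp (-z * u) = cexp (-(b + z) * u) := by
        intro u
        rw [← Complex.exp_add]
        congr 1
        ring
      simp_rw [e1]
      have hb' : (-(b + z)).re < 0 := by
        rw [Complex.neg_re]
        linarith
      refine ⟨integrableOn_exp_mul_complex_Ioi hb' 0, ?_⟩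
      rw [integral_exp_mul_complex_Ioi hb', Complex.ofReal_zero, mul_zero, Complex.exp_zero,
        neg_div_neg_eq]
    obtain ⟨i2, j2⟩ := iexp (-(1 / 2)) (by
      rw [Complex.add_re, Complex.neg_re, half_re']
      linarith)
    obtain ⟨i3, j3⟩ := Zs_LT hPF hχ (z := z) (by linarith) h1
    obtain ⟨i4, j4⟩ := iexp 1 (by
      rw [Complex.add_re, Complex.one_re]
      linarith)
    obtain ⟨i5, j5⟩ := iexp (1 / 2) (by
      rw [Complex.add_re, half_re']
      linarith)
    obtain ⟨i6, j6⟩ := XS_int hl (dk_sum ha0) (z := z) (by linarith)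
    have e1 : (fun u : ℝ => g u * cexp (-z * u)) = fun u : ℝ =>
        ((ES (bc ψ) u * cexp (-z * u) - (P1 χ * (8 / 3)) * (cexp (-(-(1 / 2)) * u) * cexp (-z * u))) +
          Zs χ u * cexp (-z * u)) -
        ((A * (cexp (-1 * u) * cexp (-z * u)) + (P1 χ * (8 / 3)) * (cexp (-(1 / 2) * u) * cexp (-z * u))) +
          XS (dk a) (fun k => ((bk a k : ℝ) : ℂ)) u * cexp (-z * u)) := by
      funext u
      simp only [hg, neg_neg]
      ring
    have I12 := i1.sub (i2.const_mul (P1 χ * (8 / 3)))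
    have I45 := (i4.const_mul A).add (i5.const_mul (P1 χ * (8 / 3)))
    refine ⟨?_, ?_⟩
    · rw [e1]
      exact (I12.add i3).sub (I45.add i6)
    · rw [e1]
      have E1 := integral_sub (I12.add i3) (I45.add i6)
      have E2 := integral_add I12 i3
      have E3 := integral_add I45 i6
      have E4 := integral_sub i1 (i2.const_mul (P1 χ * (8 / 3)))
      have E5 := integral_add (i4.const_mul A) (i5.const_mul (P1 χ * (8 / 3)))
      have E : ∫ u in Ioi (0 : ℝ), (((ES (bc ψ) u * cexp (-z * u) - (P1 χ * (8 / 3)) * (cexp (-(-(1 / 2)) * u) *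
          cexp (-z * u))) + Zs χ u * cexp (-z * u)) -
        ((A * (cexp (-1 * u) * cexp (-z * u)) + (P1 χ * (8 / 3)) * (cexp (-(1 / 2) * u) * cexp (-z * u))) +
          XS (dk a) (fun k => ((bk a k : ℝ) : ℂ)) u * cexp (-z * u))) =
        ((∫ u in Ioi (0 : ℝ), ES (bc ψ) u * cexp (-z * u)) - ∫ u in Ioi (0 : ℝ), (P1 χ * (8 / 3)) *
          (cexp (-(-(1 / 2)) * u) * cexp (-z * u))) + (∫ u in Ioi (0 : ℝ), Zs χ u * cexp (-z * u)) -
        (((∫ u in Ioi (0 : ℝ), A * (cexp (-1 * u) * cexp (-z * u))) + ∫ u in Ioi (0 : ℝ), (P1 χ * (8 / 3)) *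
          (cexp (-(1 / 2) * u) * cexp (-z * u))) +
          ∫ u in Ioi (0 : ℝ), XS (dk a) (fun k => ((bk a k : ℝ) : ℂ)) u * cexp (-z * u)) := by
        rw [← E4, ← E5]
        exact E1.trans (congrArg₂ (fun x y => x - y) E2 E3)
      rw [E, integral_const_mul, integral_const_mul, integral_const_mul, j1, j2, j3, j4, j5, j6,
        DS_bc ψ (by linarith), DS_bc ψ (by norm_num)]
      -- the algebra
      have t0 := hK' z (by linarith) h1
      have x1 := hsplit z (by linarith)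
      have x2 := hsplit 1 (by norm_num)
      have t1 := TT_pole (b := 1 / 2) (z := z) h4' (by norm_num) (by norm_num) h1' h2'
      have t2 := TT_pole (b := -(1 / 2)) (z := z) h3' (by norm_num) (by norm_num) h1' h2'
      have t3 := TT_const (K := K) h1' h2'
      unfold TT at t0 t1 t2 t3
      beta_reduce at t0 t1 t2 t3
      have hre1 : ((Xi χ 1).re : ℂ) = (A - (K + K' - Xi χ 1 - P1 χ * (8 / 3))) / 2 := by
        rw [hA]
        ring
      rw [hre1]
      have hsq : (1 : ℂ) - z ^ 2 = (1 - z) * (1 + z) := by ring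
      have hfrac : (1 : ℂ) / (1 - z) = (1 + z) / (1 - z ^ 2) := by
        rw [hsq]
        field_simp
      have hfrac2 : (1 : ℂ) / (1 + z) = (1 - z) / (1 - z ^ 2) := by
        rw [hsq]
        field_simp
      have hsqne : (1 : ℂ) - z ^ 2 ≠ 0 := by
        rw [hsq]
        exact mul_ne_zero h1' h2'
      have x12 : 2 / (1 - z ^ 2) * (Xi χ z - logDeriv (LFunction ψ) (1 / 2 + z)) -
          1 / (1 - z) * (Xi χ 1 - logDeriv (LFunction ψ) (1 / 2 + 1)) =
          K / (1 + z) + (K' / (1 + z) + ∑' k : ℕ, dk a k / (((bk a k : ℝ) : ℂ) + z)) +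
          P1 χ * ((1 / (1 / 2 - 1) / (1 + z) - 2 / ((1 / 2) ^ 2 - 1) / (1 / 2 + z)) +
            (1 / (-(1 / 2) - 1) / (1 + z) - 2 / ((-(1 / 2)) ^ 2 - 1) / (-(1 / 2) + z))) := by
        rw [← t0, ← t1, ← t2, ← t3, x1, x2]
        ring
      have hfin : -(2 / (1 - z ^ 2)) * Xi χ 1 + 1 / (1 - z) * Xi χ 1 = -(1 / (1 + z)) * Xi χ 1 := by
        rw [hsq]
        field_simp
        ring
      linear_combination x12 + hfin
  have hz2 : (1 : ℝ) < (((2 : ℝ) : ℂ)).re := by
    rw [Complex.ofReal_re]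
    norm_num
  have h0 := lt_unique (σ := 2) hgc (key _ hz2).1 (fun y => (key (((2 : ℝ) : ℂ) + y * I) (by simp)).2) hu
  exact sub_eq_zero.1 h0

end main

/-- LQ-EF -/
theorem t_EF (h : S_PF) : S_EF := by
  intro q _ χ hχ
  have : NeZero χ.conductor := ⟨χ.conductor_ne_zero⟩
  obtain ⟨A, B, a, ha0, ha1, hform⟩ := formula χ h hχ
  obtain ⟨C1, hC1, hdiff⟩ := ES_diff χ
  have hl : ∀ k : ℕ, 1 / 4 ≤ (((bk a k : ℝ) : ℂ)).re := fun k => by
    rw [Complex.ofReal_re]
    linarith [bk_pos ha0 k]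
  set S : ℝ := ∑' k, ‖dk a k‖ with hS
  have hS0 : 0 ≤ S := tsum_nonneg fun k => norm_nonneg _
  set C0 : ℝ := ‖EC χ 0 + ∑' γ : ℝ, (mc χ γ : ℂ) * ((2 / (1 + γ ^ 2) : ℝ) : ℂ) * cexp (I * γ * (0 : ℝ))‖ with hC0
  have hC00 : 0 ≤ C0 := norm_nonneg _
  refine ⟨C0 + (C1 + ‖A‖ + ‖B‖ + S), fun u hu => ?_⟩
  rcases hu.eq_or_lt with rfl | hu0
  · have e : Real.exp (-(0 / 4)) = 1 := by simp
    rw [e, mul_one]
    have : 0 ≤ C1 + ‖A‖ + ‖B‖ + S := by positivity
    linarith
  · have hEC : EC χ u + ∑' γ : ℝ, (mc χ γ : ℂ) * ((2 / (1 + γ ^ 2) : ℝ) : ℂ) * cexp (I * γ * u) =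
        (ES (bc χ) u - ES (bc χ.primitiveCharacter) u) +
          (A * cexp (-1 * u) + B * cexp (-(1 / 2) * u) + XS (dk a) (fun k => ((bk a k : ℝ) : ℂ)) u) := by
      rw [← hform u hu0, EC_eq]
      have e1 : (open Classical in if χ = 1 then ((8 / 3 * Real.exp (u / 2) : ℝ) : ℂ) else 0) =
          P1 χ * (8 / 3 * cexp (1 / 2 * u)) := by
        unfold P1
        split_ifs
        · rw [one_mul, Complex.ofReal_mul, Complex.ofReal_exp]
          push_cast
          congr 2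
          ring
        · rw [zero_mul]
      rw [e1]
      unfold Zs cz
      ring
    rw [hEC]
    have hexp : ∀ b : ℝ, 1 / 4 ≤ b → Real.exp (-(b * u)) ≤ Real.exp (-(u / 4)) := by
      intro b hb
      refine Real.exp_le_exp.2 ?_
      nlinarith
    have n1 : ‖A * cexp (-1 * u)‖ ≤ ‖A‖ * Real.exp (-(u / 4)) := by
      rw [norm_mul, Complex.norm_exp]
      refine mul_le_mul_of_nonneg_left ?_ (norm_nonneg _)
      have e : (-1 * (u : ℂ)).re = -(1 * u) := by simp
      rw [e]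
      exact hexp 1 (by norm_num)
    have n2 : ‖B * cexp (-(1 / 2) * u)‖ ≤ ‖B‖ * Real.exp (-(u / 4)) := by
      rw [norm_mul, Complex.norm_exp]
      refine mul_le_mul_of_nonneg_left ?_ (norm_nonneg _)
      have e : (-(1 / 2) * (u : ℂ)).re = -(1 / 2 * u) := by
        rw [Complex.re_mul_ofReal, Complex.neg_re, half_re']
        ring
      rw [e]
      exact hexp (1 / 2) (by norm_num)
    have n3 : ‖XS (dk a) (fun k => ((bk a k : ℝ) : ℂ)) u‖ ≤ S * Real.exp (-(u / 4)) := by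
      have h3 := XS_bound hl (dk_sum ha0) hu
      have e : Real.exp (-(1 / 4 * u)) = Real.exp (-(u / 4)) := by
        congr 1
        ring
      rwa [e] at h3
    have n0 := hdiff u
    have h1 := norm_add_le (ES (bc χ) u - ES (bc χ.primitiveCharacter) u)
      (A * cexp (-1 * u) + B * cexp (-(1 / 2) * u) + XS (dk a) (fun k => ((bk a k : ℝ) : ℂ)) u)
    have h2 := norm_add_le (A * cexp (-1 * u) + B * cexp (-(1 / 2) * u)) (XS (dk a) (fun k => ((bk a k : ℝ) : ℂ)) u)
    have h3 := norm_add_le (A * cexp (-1 * u)) (B * cexp (-(1 / 2) * u))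
    have h4 : 0 ≤ C0 * Real.exp (-(u / 4)) := by positivity
    have e : (C0 + (C1 + ‖A‖ + ‖B‖ + S)) * Real.exp (-(u / 4)) = C0 * Real.exp (-(u / 4)) +
      (C1 * Real.exp (-(u / 4)) + ‖A‖ * Real.exp (-(u / 4)) + ‖B‖ * Real.exp (-(u / 4)) + S * Real.exp (-(u / 4))) := by
      ring
    rw [e]
    linarith

end Pool.Agent.Q14.LQ
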