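import Pool.Agent.Q14.LQ.Lt

set_option autoImplicit false

/-! Project LQ (helper253), job EF: uniqueness of Laplace transforms; transforms of exponential sums. -/

namespace Pool.Agent.Q14.LQ

open MeasureTheory Complex Filter Topology Set
open scoped FourierTransform Real

/-- uniqueness of the Laplace transform on a vertical line -/
theorem lt_unique {g : ℝ → ℂ} (hg : ContinuousOn g (Ioi 0)) {σ : ℝ}
    (hint : IntegrableOn (fun u : ℝ => g u * cexp (-(σ : ℂ) * u)) (Ioi 0))
    (h0 : ∀ y : ℝ, ∫ u in Ioi (0 : ℝ), g u * cexp (-((σ : ℂ) + y * I) * u) = 0) {u : ℝ} (hu : 0 < u) : g u = 0 := by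
  set f : ℝ → ℂ := indicator (Ioi 0) (fun u : ℝ => g u * cexp (-(σ : ℂ) * u)) with hf
  have hfi : Integrable f := (integrable_indicator_iff measurableSet_Ioi).2 hint
  have hF : 𝓕 f = 0 := by
    funext w
    rw [Real.fourier_real_eq_integral_exp_smul]
    have e1 : (fun v : ℝ => cexp (((-2 * π * v * w : ℝ) : ℂ) * I) • f v) =
        indicator (Ioi 0) (fun v : ℝ => g v * cexp (-((σ : ℂ) + ((2 * π * w : ℝ) : ℂ) * I) * v)) := by
      funext v
      rw [hf]
      by_cases hv : v ∈ Ioi (0 : ℝ)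
      · rw [indicator_of_mem hv, indicator_of_mem hv, smul_eq_mul]
        have e2 : cexp (-((σ : ℂ) + ((2 * π * w : ℝ) : ℂ) * I) * v) =
            cexp (-(σ : ℂ) * v) * cexp (((-2 * π * v * w : ℝ) : ℂ) * I) := by
          rw [← Complex.exp_add]
          congr 1
          push_cast
          ring
        rw [e2]
        ring
      · rw [indicator_of_notMem hv, indicator_of_notMem hv, smul_zero]
    rw [e1, integral_indicator measurableSet_Ioi, h0]
    rfl
  have hc : ContinuousAt f u := by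
    have h1 : f =ᶠ[𝓝 u] fun u : ℝ => g u * cexp (-(σ : ℂ) * u) := by
      filter_upwards [Ioi_mem_nhds hu] with v hv
      rw [hf, indicator_of_mem hv]
    have h2 : ContinuousAt (fun u : ℝ => g u * cexp (-(σ : ℂ) * u)) u :=
      (hg.continuousAt (Ioi_mem_nhds hu)).mul (by fun_prop : Continuous fun u : ℝ => cexp (-(σ : ℂ) * u)).continuousAt
    exact h2.congr h1.symm
  have hi : Integrable (𝓕 f) := by
    rw [hF]
    exact integrable_zero _ _ _
  have key := hfi.fourierInv_fourier_eq hi hc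
  rw [hF] at key
  have h3 : 𝓕⁻ (0 : ℝ → ℂ) u = 0 := by
    rw [Real.fourierInv_eq]
    simp
  rw [h3] at key
  have h4 : f u = g u * cexp (-(σ : ℂ) * u) := by
    rw [hf, indicator_of_mem (show u ∈ Ioi (0 : ℝ) from hu)]
  rw [h4] at key
  exact (mul_eq_zero.1 key.symm).resolve_right (Complex.exp_ne_zero _)

/-- sums of exponentials -/
noncomputable def XS {ι : Type} (c : ι → ℂ) (l : ι → ℂ) (u : ℝ) : ℂ := ∑' i, c i * cexp (-l i * u)

theorem XS_norm_le {ι : Type} (c l : ι → ℂ) (hl : ∀ i, 0 ≤ (l i).re) {u : ℝ} (hu : 0 ≤ u) (i : ι) :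
    ‖c i * cexp (-l i * u)‖ ≤ ‖c i‖ := by
  rw [norm_mul, Complex.norm_exp, Complex.re_mul_ofReal, Complex.neg_re]
  have : Real.exp (-(l i).re * u) ≤ 1 := Real.exp_le_one_iff.2 (by nlinarith [hl i])
  nlinarith [norm_nonneg (c i)]

theorem XS_cont {ι : Type} {c l : ι → ℂ} (hl : ∀ i, 0 ≤ (l i).re) (hc : Summable (fun i => ‖c i‖)) :
    ContinuousOn (XS c l) (Ioi 0) := by
  unfold XS
  refine continuousOn_tsum (u := fun i => ‖c i‖) (fun i => ?_) hc (fun i u hu => ?_)
  · exact (by fun_prop : Continuous fun u : ℝ => c i * cexp (-l i * u)).continuousOn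
  · exact XS_norm_le c l hl (le_of_lt hu) i

theorem XS_bound {ι : Type} {c l : ι → ℂ} {a : ℝ} (hl : ∀ i, a ≤ (l i).re) (hc : Summable (fun i => ‖c i‖))
    {u : ℝ} (hu : 0 ≤ u) : ‖XS c l u‖ ≤ (∑' i, ‖c i‖) * Real.exp (-(a * u)) := by
  have h1 : ∀ i, ‖c i * cexp (-l i * u)‖ ≤ ‖c i‖ * Real.exp (-(a * u)) := by
    intro i
    rw [norm_mul, Complex.norm_exp, Complex.re_mul_ofReal, Complex.neg_re]
    refine mul_le_mul_of_nonneg_left (Real.exp_le_exp.2 ?_) (norm_nonneg _)
    nlinarith [hl i]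
  have h2 := hc.mul_right (Real.exp (-(a * u)))
  have hs : Summable (fun i => ‖c i * cexp (-l i * u)‖) := Summable.of_nonneg_of_le (fun _ => norm_nonneg _) h1 h2
  rw [← tsum_mul_right]
  exact (norm_tsum_le_tsum_norm hs).trans (hs.tsum_le_tsum h1 h2)

theorem XS_int {ι : Type} [Countable ι] {c l : ι → ℂ} (hl : ∀ i, 0 ≤ (l i).re) (hc : Summable (fun i => ‖c i‖)) {z : ℂ}
    (hz : 0 < z.re) :
    IntegrableOn (fun u : ℝ => XS c l u * cexp (-z * u)) (Ioi 0) ∧
      ∫ u in Ioi (0 : ℝ), XS c l u * cexp (-z * u) = ∑' i, c i / (l i + z) := by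
  have hre : ∀ i, (-(l i + z)).re < 0 := by
    intro i
    rw [Complex.neg_re, Complex.add_re]
    linarith [hl i]
  have hterm : ∀ (i : ι) (u : ℝ), c i * cexp (-l i * u) * cexp (-z * u) = c i * cexp (-(l i + z) * u) := by
    intro i u
    rw [mul_assoc, ← Complex.exp_add]
    congr 2
    ring
  have hI : ∀ i, Integrable (fun u : ℝ => c i * cexp (-l i * u) * cexp (-z * u)) (volume.restrict (Ioi 0)) := by
    intro i
    simp_rw [hterm]
    exact (integrableOn_exp_mul_complex_Ioi (hre i) 0).const_mul _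
  have hK : IntegrableOn (fun u : ℝ => Real.exp ((-z.re) * u)) (Ioi 0) :=
    integrableOn_exp_mul_Ioi (by linarith) 0
  have hnorm : ∀ i, ∀ u : ℝ, 0 < u → ‖c i * cexp (-l i * u) * cexp (-z * u)‖ ≤ ‖c i‖ * Real.exp ((-z.re) * u) := by
    intro i u hu
    rw [norm_mul, Complex.norm_exp (-z * u), Complex.re_mul_ofReal, Complex.neg_re]
    exact mul_le_mul_of_nonneg_right (XS_norm_le c l hl hu.le i) (Real.exp_pos _).le
  have hS : Summable (fun i => ∫ u in Ioi (0 : ℝ), ‖c i * cexp (-l i * u) * cexp (-z * u)‖) := by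
    refine Summable.of_nonneg_of_le (fun n => integral_nonneg fun u => norm_nonneg _) (fun i => ?_)
      (hc.mul_right (∫ u in Ioi (0 : ℝ), Real.exp ((-z.re) * u)))
    rw [← integral_const_mul]
    exact setIntegral_mono_on (hI i).norm (hK.const_mul _) measurableSet_Ioi fun u hu => hnorm i u hu
  have key := integral_tsum_of_summable_integral_norm hI hS
  have e1 : ∀ u : ℝ, ∑' i, c i * cexp (-l i * u) * cexp (-z * u) = XS c l u * cexp (-z * u) := by
    intro u
    unfold XS
    rw [tsum_mul_right]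
  simp_rw [e1] at key
  refine ⟨?_, ?_⟩
  · have hm : AEStronglyMeasurable (fun u : ℝ => XS c l u * cexp (-z * u)) (volume.restrict (Ioi 0)) := by
      have hcont : ContinuousOn (XS c l) (Ioi 0) := XS_cont hl hc
      exact (hcont.mul (by fun_prop : Continuous fun u : ℝ => cexp (-z * u)).continuousOn).aestronglyMeasurable
        measurableSet_Ioi
    refine Integrable.mono' (hK.const_mul (∑' i, ‖c i‖)) hm ?_
    refine (ae_restrict_iff' measurableSet_Ioi).2 (Eventually.of_forall fun u hu => ?_)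
    have hu0 : 0 < u := hu
    rw [norm_mul, Complex.norm_exp (-z * u), Complex.re_mul_ofReal, Complex.neg_re]
    refine mul_le_mul_of_nonneg_right ?_ (Real.exp_pos _).le
    have hs : Summable (fun i => ‖c i * cexp (-l i * u)‖) :=
      Summable.of_nonneg_of_le (fun _ => norm_nonneg _) (fun i => XS_norm_le c l hl hu0.le i) hc
    exact (norm_tsum_le_tsum_norm hs).trans (hs.tsum_le_tsum (fun i => XS_norm_le c l hl hu0.le i) hc)
  · rw [← key]
    refine tsum_congr fun i => ?_
    simp_rw [hterm]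
    rw [integral_const_mul, integral_exp_mul_complex_Ioi (hre i)]
    rw [Complex.ofReal_zero, mul_zero, Complex.exp_zero, neg_div_neg_eq]
    ring

end Pool.Agent.Q14.LQ
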