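import Pool.Agent.Q14.LQ.EF1
import Pool.Agent.W45.WP.Dig

set_option autoImplicit false

/-! Project LQ (helper253), job EF: the transform of the sum over the zeros, and of the Gamma factor. -/

namespace Pool.Agent.Q14.LQ

open MeasureTheory Complex Filter Topology Set
open DirichletCharacter (LFunction completedLFunction)
open Pool.Agent.Q253.LQ

section zeros

variable {q : ℕ} [NeZero q] {χ : DirichletCharacter ℂ q}

/-- the coefficients of the sum over the zeros -/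
noncomputable def cz (χ : DirichletCharacter ℂ q) (γ : ℝ) : ℂ := (mc χ γ : ℂ) * ((2 / (1 + γ ^ 2) : ℝ) : ℂ)

/-- the sum over the zeros -/
noncomputable def Zs (χ : DirichletCharacter ℂ q) (u : ℝ) : ℂ := ∑' γ : ℝ, cz χ γ * cexp (I * γ * u)

theorem one_sq_ne (γ : ℝ) : (1 : ℝ) + γ ^ 2 ≠ 0 := by positivity

theorem cz_norm (χ : DirichletCharacter ℂ q) (γ : ℝ) : ‖cz χ γ‖ = 2 * ((mc χ γ : ℝ) / (1 + γ ^ 2)) := by
  unfold cz
  rw [norm_mul, Complex.norm_real, Complex.norm_natCast, Real.norm_of_nonneg (by positivity)]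
  ring

/-- the set of the zeros -/
def SZ (χ : DirichletCharacter ℂ q) : Set ℝ := {γ : ℝ | mc χ γ ≠ 0}

theorem SZ_countable (hs : Summable (fun γ : ℝ => (mc χ γ : ℝ) / (1 + γ ^ 2))) : (SZ χ).Countable := by
  refine hs.countable_support.mono fun γ hγ => ?_
  rw [Function.mem_support]
  refine div_ne_zero ?_ (one_sq_ne γ)
  have hγ' : mc χ γ ≠ 0 := hγ
  exact_mod_cast hγ'

theorem cz_supp (f : ℝ → ℂ) : Function.support (fun γ : ℝ => cz χ γ * f γ) ⊆ SZ χ := by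
  intro γ hγ
  rw [Function.mem_support] at hγ
  intro h0
  refine hγ ?_
  unfold cz
  rw [h0]
  simp

theorem Zs_eq (u : ℝ) : Zs χ u = XS (fun γ : SZ χ => cz χ γ) (fun γ : SZ χ => -(I * ((γ : ℝ) : ℂ))) u := by
  unfold Zs XS
  have h := tsum_subtype_eq_of_support_subset (cz_supp (χ := χ) (fun γ : ℝ => cexp (I * γ * u)))
  rw [← h]
  refine tsum_congr fun γ => ?_
  rw [neg_neg]

theorem cz_sum (hs : Summable (fun γ : ℝ => (mc χ γ : ℝ) / (1 + γ ^ 2))) : Summable (fun γ : ℝ => ‖cz χ γ‖) := by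
  simp_rw [cz_norm]
  exact hs.mul_left 2

theorem cz_sum' (hs : Summable (fun γ : ℝ => (mc χ γ : ℝ) / (1 + γ ^ 2))) :
    Summable (fun γ : SZ χ => ‖cz χ γ‖) := (cz_sum hs).subtype _

theorem re_I (γ : ℝ) : (-(I * (γ : ℂ))).re = 0 := by simp

theorem Zs_cont (hs : Summable (fun γ : ℝ => (mc χ γ : ℝ) / (1 + γ ^ 2))) : ContinuousOn (Zs χ) (Ioi 0) := by
  have e : Zs χ = XS (fun γ : SZ χ => cz χ γ) (fun γ : SZ χ => -(I * ((γ : ℝ) : ℂ))) := funext Zs_eq
  rw [e]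
  exact XS_cont (fun γ => (re_I γ).ge) (cz_sum' hs)

/-- the logarithmic derivative -/
noncomputable def Xi (χ : DirichletCharacter ℂ q) (z : ℂ) : ℂ := logDeriv (XL χ) (1 / 2 + z)

theorem zI_ne {z : ℂ} (hz : 0 < z.re) (γ : ℝ) : z - γ * I ≠ 0 := by
  intro h
  have := congrArg Complex.re h
  simp at this
  linarith

theorem Zs_LT (hPF : S_PF) (hχ : GRHc χ) {z : ℂ} (hz : 0 < z.re) (h1 : z ≠ 1) :
    IntegrableOn (fun u : ℝ => Zs χ u * cexp (-z * u)) (Ioi 0) ∧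
      ∫ u in Ioi (0 : ℝ), Zs χ u * cexp (-z * u) =
        2 / (1 - z ^ 2) * (Xi χ z - Xi χ 1) + 2 / (1 + z) * ((Xi χ 1).re : ℂ) := by
  obtain ⟨hs, hre, hdiff⟩ := hPF q χ hχ
  have : Countable (SZ χ) := (SZ_countable hs).to_subtype
  have key := XS_int (c := fun γ : SZ χ => cz χ γ) (l := fun γ : SZ χ => -(I * ((γ : ℝ) : ℂ)))
    (fun γ => (re_I γ).ge) (cz_sum' hs) hz
  have e : Zs χ = XS (fun γ : SZ χ => cz χ γ) (fun γ : SZ χ => -(I * ((γ : ℝ) : ℂ))) := funext Zs_eq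
  rw [e]
  refine ⟨key.1, ?_⟩
  rw [key.2]
  have e1 : ∑' γ : SZ χ, cz χ γ / (-(I * ((γ : ℝ) : ℂ)) + z) = ∑' γ : ℝ, cz χ γ / (z - γ * I) := by
    have h := tsum_subtype_eq_of_support_subset (cz_supp (χ := χ) (fun γ : ℝ => 1 / (z - γ * I)))
    have e2 : ∀ γ : ℝ, cz χ γ / (z - γ * I) = cz χ γ * (1 / (z - γ * I)) := fun γ => by ring
    simp_rw [e2]
    rw [← h]
    refine tsum_congr fun γ => ?_
    have : -(I * ((γ : ℝ) : ℂ)) + z = z - (γ : ℝ) * I := by ring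
    rw [this]
    ring
  rw [e1]
  have h1' : 1 - z ≠ 0 := sub_ne_zero.2 (Ne.symm h1)
  have h2' : 1 + z ≠ 0 := by
    intro h
    have := congrArg Complex.re h
    simp at this
    linarith
  have h3' : 1 - z ^ 2 ≠ 0 := by
    have : 1 - z ^ 2 = (1 - z) * (1 + z) := by ring
    rw [this]
    exact mul_ne_zero h1' h2'
  have sA : Summable (fun γ : ℝ => cz χ γ / (z - γ * I)) := by
    refine Summable.of_norm_bounded ((cz_sum hs).mul_right (1 / z.re)) fun γ => ?_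
    rw [norm_div, div_eq_mul_one_div]
    refine mul_le_mul_of_nonneg_left ?_ (norm_nonneg _)
    refine one_div_le_one_div_of_le hz ?_
    have := Complex.re_le_norm (z - γ * I)
    simpa using this
  have sB : Summable (fun γ : ℝ => (((mc χ γ : ℝ) / (1 + γ ^ 2) : ℝ) : ℂ)) := by
    exact_mod_cast hs
  have hB : ∑' γ : ℝ, (((mc χ γ : ℝ) / (1 + γ ^ 2) : ℝ) : ℂ) = ((Xi χ 1).re : ℂ) := by
    rw [← Complex.ofReal_tsum]
    congr 1
    unfold Xi
    rw [hre 1 (by norm_num)]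
    refine tsum_congr fun γ => ?_
    have e3 : (1 / (1 - (γ : ℂ) * I)).re = 1 / (1 + γ ^ 2) := by
      rw [one_div, Complex.inv_re]
      have e4 : Complex.normSq (1 - (γ : ℂ) * I) = 1 + γ ^ 2 := by
        rw [Complex.normSq_apply]
        simp
        ring
      rw [e4]
      simp
    rw [e3]
    ring
  have hT : ∀ γ : ℝ, (mc χ γ : ℂ) * (1 / (z - γ * I) - 1 / (1 - γ * I)) =
      (1 - z ^ 2) / 2 * (cz χ γ / (z - γ * I) - 2 / (1 + z) * (((mc χ γ : ℝ) / (1 + γ ^ 2) : ℝ) : ℂ)) := by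
    intro γ
    have n1 := zI_ne hz γ
    have n2 := zI_ne (z := 1) (by norm_num) γ
    have n3 : (1 : ℂ) + (γ : ℂ) ^ 2 ≠ 0 := by exact_mod_cast one_sq_ne γ
    unfold cz
    push_cast
    generalize (mc χ γ : ℂ) = m
    have e5 : (1 : ℂ) + (γ : ℂ) ^ 2 = (1 - γ * I) * (1 + γ * I) := by
      have : I ^ 2 = -1 := Complex.I_sq
      linear_combination (γ : ℂ) ^ 2 * this
    have n4 : (1 : ℂ) + γ * I ≠ 0 := by
      rw [e5] at n3
      exact right_ne_zero_of_mul n3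
    rw [e5]
    field_simp
    ring
  have hd := hdiff z 1 hz (by norm_num)
  rw [tsum_congr hT, tsum_mul_left, Summable.tsum_sub sA (sB.mul_left _), tsum_mul_left, hB] at hd
  have hd' : Xi χ z - Xi χ 1 = (1 - z ^ 2) / 2 * (∑' γ : ℝ, cz χ γ / (z - γ * I) - 2 / (1 + z) * ((Xi χ 1).re : ℂ)) := hd
  rw [hd']
  generalize ∑' γ : ℝ, cz χ γ / (z - γ * I) = A
  field_simp
  ring

end zeros

section gamma

/-- the exponents -/
noncomputable def bk (a : ℝ) (k : ℕ) : ℝ := 2 * k + 1 / 2 + a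

/-- the operator -/
noncomputable def TT (g : ℂ → ℂ) (z : ℂ) : ℂ := 2 / (1 - z ^ 2) * g z - 1 / (1 - z) * g 1

theorem TT_pole {b z : ℂ} (hb : b + z ≠ 0) (hb1 : b + 1 ≠ 0) (hb2 : b - 1 ≠ 0) (h1 : 1 - z ≠ 0) (h2 : 1 + z ≠ 0) :
    TT (fun z => 1 / (b + z)) z = 1 / (b - 1) / (1 + z) - 2 / (b ^ 2 - 1) / (b + z) := by
  unfold TT
  have e1 : 1 - z ^ 2 = (1 - z) * (1 + z) := by ring
  have e2 : b ^ 2 - 1 = (b - 1) * (b + 1) := by ring
  rw [e1, e2]
  field_simp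
  ring

theorem TT_const {K z : ℂ} (h1 : 1 - z ≠ 0) (h2 : 1 + z ≠ 0) : TT (fun _ => K) z = K / (1 + z) := by
  unfold TT
  have e1 : 1 - z ^ 2 = (1 - z) * (1 + z) := by ring
  rw [e1]
  field_simp
  ring

/-- the coefficients of the gamma factor -/
noncomputable def dk (a : ℝ) (k : ℕ) : ℂ := ((2 / (bk a k ^ 2 - 1) : ℝ) : ℂ)

theorem dk_sum {a : ℝ} (ha : 0 ≤ a) : Summable (fun k : ℕ => ‖dk a k‖) := by
  have h1 : Summable (fun k : ℕ => 2 * (1 / ((k : ℝ) + 1) ^ 2)) := H370.DG.summable_inv_sq.mul_left 2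
  rw [← summable_nat_add_iff 1]
  refine Summable.of_nonneg_of_le (fun _ => norm_nonneg _) (fun k => ?_) h1
  unfold dk
  rw [Complex.norm_real]
  have hk : (0 : ℝ) ≤ k := Nat.cast_nonneg k
  have h2 : ((k : ℝ) + 1) ^ 2 ≤ bk a (k + 1) ^ 2 - 1 := by
    unfold bk
    push_cast
    nlinarith
  have h3 : 0 < ((k : ℝ) + 1) ^ 2 := by positivity
  rw [Real.norm_of_nonneg (div_nonneg (by norm_num) (h3.le.trans h2)), div_eq_mul_one_div]
  exact mul_le_mul_of_nonneg_left (one_div_le_one_div_of_le h3 h2) (by norm_num)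

/-- the constants of the gamma factor -/
noncomputable def ck (a : ℝ) (n : ℕ) : ℂ := ((1 / (2 * ((n : ℝ) + 1)) - 1 / (bk a (n + 1) - 1) : ℝ) : ℂ)

theorem ck_sum {a : ℝ} (ha : 0 ≤ a) (ha1 : a ≤ 1) : Summable (fun n : ℕ => ck a n) := by
  have h1 : Summable (fun k : ℕ => (1 / ((k : ℝ) + 1) ^ 2)) := H370.DG.summable_inv_sq
  refine Summable.of_norm_bounded h1 fun n => ?_
  unfold ck
  rw [Complex.norm_real]
  have hn : (0 : ℝ) ≤ n := Nat.cast_nonneg n
  have h2 : (n : ℝ) + 1 ≤ bk a (n + 1) - 1 := by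
    unfold bk
    push_cast
    linarith
  have h3 : (0 : ℝ) < (n : ℝ) + 1 := by linarith
  have h4 : 0 < bk a (n + 1) - 1 := by linarith
  have e : 1 / (2 * ((n : ℝ) + 1)) - 1 / (bk a (n + 1) - 1) =
      ((a - 1 / 2) / 2) * (1 / (((n : ℝ) + 1) * (bk a (n + 1) - 1))) := by
    have h5 : a - 1 / 2 = (bk a (n + 1) - 1) - 2 * ((n : ℝ) + 1) := by
      unfold bk
      push_cast
      ring
    rw [h5]
    generalize bk a (n + 1) - 1 = B at h4 ⊢
    have h6 : B ≠ 0 := h4.ne'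
    field_simp
  rw [e, Real.norm_eq_abs, abs_mul]
  have h6 : |(a - 1 / 2) / 2| ≤ 1 := by
    rw [abs_le]
    constructor <;> linarith
  have h7 : |1 / (((n : ℝ) + 1) * (bk a (n + 1) - 1))| ≤ 1 / ((n : ℝ) + 1) ^ 2 := by
    rw [abs_of_nonneg (by positivity), sq]
    exact one_div_le_one_div_of_le (by positivity) (mul_le_mul_of_nonneg_left h2 h3.le)
  calc |(a - 1 / 2) / 2| * |1 / (((n : ℝ) + 1) * (bk a (n + 1) - 1))| ≤ 1 * (1 / ((n : ℝ) + 1) ^ 2) :=
        mul_le_mul h6 h7 (abs_nonneg _) zero_le_one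
    _ = _ := one_mul _

/-- the logarithmic derivative of the Gamma factor -/
theorem logDeriv_GR {s : ℂ} (hs : 0 < s.re) :
    logDeriv Gammaℝ s = -(Real.log Real.pi / 2 : ℝ) + logDeriv Complex.Gamma (s / 2) / 2 := by
  have hre : 0 < (s / 2).re := by
    have : (s / 2).re = s.re / 2 := by simp
    rw [this]
    linarith
  have hns : ∀ m : ℕ, s / 2 ≠ -(m : ℂ) := by
    intro m h
    have := congrArg Complex.re h
    simp at this
    have hm : (0 : ℝ) ≤ m := Nat.cast_nonneg m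
    linarith
  have hG : HasDerivAt Complex.Gamma (deriv Complex.Gamma (s / 2)) (s / 2) :=
    (Complex.differentiableAt_Gamma _ hns).hasDerivAt
  have hne : Complex.Gamma (s / 2) ≠ 0 := Complex.Gamma_ne_zero hns
  have h1 : HasDerivAt (fun z : ℂ => Complex.Gamma (z / 2)) (deriv Complex.Gamma (s / 2) * (1 / 2)) s :=
    HasDerivAt.comp s hG ((hasDerivAt_id s).div_const 2)
  have h2 : HasDerivAt (fun z : ℂ => (Real.pi : ℂ) ^ (-z / 2))
      ((Real.pi : ℂ) ^ (-s / 2) * Complex.log Real.pi * (-1 / 2)) s := by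
    have : HasDerivAt (fun z : ℂ => -z / 2) (-1 / 2) s := ((hasDerivAt_id s).neg).div_const 2
    exact this.const_cpow (Or.inl (by exact_mod_cast Real.pi_ne_zero))
  have h3 := h2.mul h1
  have e : (fun z : ℂ => (Real.pi : ℂ) ^ (-z / 2)) * (fun z : ℂ => Complex.Gamma (z / 2)) = Gammaℝ := by
    funext z
    simp [Gammaℝ_def]
  rw [e] at h3
  rw [logDeriv_apply, h3.deriv, Gammaℝ_def, logDeriv_apply, ← Complex.ofReal_log Real.pi_pos.le]
  have hpi : (Real.pi : ℂ) ^ (-s / 2) ≠ 0 := by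
    rw [Ne, cpow_eq_zero_iff]
    exact fun h => Real.pi_ne_zero (by exact_mod_cast h.1)
  push_cast
  field_simp

/-- the constant -/
noncomputable def K1 : ℂ := -(Real.log Real.pi / 2 : ℝ) - (Real.eulerMascheroniConstant : ℂ) / 2

theorem GR_series {a : ℝ} {z : ℂ} (hw : 0 < (1 / 2 + z + a).re) :
    logDeriv Gammaℝ (1 / 2 + z + a) = K1 - 1 / (((bk a 0 : ℝ) : ℂ) + z) +
      ∑' n : ℕ, (((1 / (2 * ((n : ℝ) + 1)) : ℝ) : ℂ) - 1 / (((bk a (n + 1) : ℝ) : ℂ) + z)) ∧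
    Summable (fun n : ℕ => (((1 / (2 * ((n : ℝ) + 1)) : ℝ) : ℂ) - 1 / (((bk a (n + 1) : ℝ) : ℂ) + z))) := by
  have hre : 0 < ((1 / 2 + z + a) / 2).re := by
    have : ((1 / 2 + z + a) / 2).re = (1 / 2 + z + a).re / 2 := by simp
    rw [this]
    linarith
  have hterm : ∀ n : ℕ, (((1 / (2 * ((n : ℝ) + 1)) : ℝ) : ℂ) - 1 / (((bk a (n + 1) : ℝ) : ℂ) + z)) =
      Pool.Agent.W45.WP.dg n ((1 / 2 + z + a) / 2) / 2 := by
    intro n
    unfold Pool.Agent.W45.WP.dg bk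
    have n1 : ((n : ℂ) + 1) ≠ 0 := by exact_mod_cast Nat.succ_ne_zero n
    have n2 : (1 / 2 + z + a) / 2 + ((n : ℂ) + 1) ≠ 0 := by
      intro h
      have := congrArg Complex.re h
      rw [Complex.add_re] at this
      simp only [Complex.add_re, natCast_re, one_re, zero_re] at this hre
      have hn : (0 : ℝ) ≤ n := Nat.cast_nonneg n
      linarith
    have e2 : (((2 * ((n + 1 : ℕ) : ℝ) + 1 / 2 + a : ℝ) : ℂ) + z) = 2 * ((1 / 2 + z + a) / 2 + ((n : ℂ) + 1)) := by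
      push_cast
      ring
    rw [e2]
    push_cast
    field_simp
  have hsum : Summable (fun n : ℕ => Pool.Agent.W45.WP.dg n ((1 / 2 + z + a) / 2) / 2) :=
    (Pool.Agent.W45.WP.summable_dg hre).div_const 2
  refine ⟨?_, hsum.congr fun n => (hterm n).symm⟩
  rw [tsum_congr hterm, tsum_div_const, logDeriv_GR hw, Pool.Agent.W45.WP.logDeriv_Gamma_eq hre]
  have e3 : (((bk a 0 : ℝ) : ℂ) + z) = 1 / 2 + z + a := by
    unfold bk
    push_cast
    ring
  have n3 : (1 / 2 + z + a) ≠ 0 := by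
    intro h
    rw [h] at hw
    simp at hw
  rw [e3]
  unfold K1
  field_simp
  ring

/-- the transform of the logarithmic derivative of the Gamma factor -/
theorem TT_GR {a : ℝ} (ha : 0 ≤ a) (ha1 : a ≤ 1) (hb0 : ∀ k, bk a k - 1 ≠ 0) : ∃ K : ℂ, ∀ z : ℂ, 0 < z.re → z ≠ 1 →
    TT (fun z => logDeriv Gammaℝ (1 / 2 + z + a)) z = K / (1 + z) + ∑' k : ℕ, dk a k / (((bk a k : ℝ) : ℂ) + z) := by
  refine ⟨K1 - 1 / (((bk a 0 : ℝ) : ℂ) - 1) + ∑' n : ℕ, ck a n, fun z hz h1 => ?_⟩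
  have h1' : 1 - z ≠ 0 := sub_ne_zero.2 (Ne.symm h1)
  have h2' : 1 + z ≠ 0 := by
    intro h
    have := congrArg Complex.re h
    simp at this
    linarith
  have hre : ∀ w : ℂ, 0 < w.re → 0 < (1 / 2 + w + a).re := by
    intro w hw
    rw [Complex.add_re, Complex.add_re, Complex.ofReal_re]
    have : ((1 : ℂ) / 2).re = 1 / 2 := by norm_num
    rw [this]
    linarith
  have hbne : ∀ (k : ℕ) (w : ℂ), 0 < w.re → ((bk a k : ℝ) : ℂ) + w ≠ 0 := by
    intro k w hw h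
    have := congrArg Complex.re h
    rw [Complex.add_re, Complex.ofReal_re, Complex.zero_re] at this
    have hb : 0 < bk a k := by
      unfold bk
      positivity
    linarith
  have hp : ∀ k : ℕ, TT (fun z => 1 / (((bk a k : ℝ) : ℂ) + z)) z =
      1 / (((bk a k : ℝ) : ℂ) - 1) / (1 + z) - dk a k / (((bk a k : ℝ) : ℂ) + z) := by
    intro k
    have hb1 : ((bk a k : ℝ) : ℂ) - 1 ≠ 0 := by exact_mod_cast hb0 k
    rw [TT_pole (hbne k z hz) (hbne k 1 (by norm_num)) hb1 h1' h2']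
    unfold dk
    push_cast
    ring
  obtain ⟨g1, s1⟩ := GR_series (a := a) (hre z hz)
  obtain ⟨g2, s2⟩ := GR_series (a := a) (z := 1) (hre 1 (by norm_num))
  have e1 : TT (fun z => logDeriv Gammaℝ (1 / 2 + z + a)) z = TT (fun _ => K1) z -
      TT (fun z => 1 / (((bk a 0 : ℝ) : ℂ) + z)) z +
      ∑' n : ℕ, (TT (fun _ => ((1 / (2 * ((n : ℝ) + 1)) : ℝ) : ℂ)) z - TT (fun z => 1 / (((bk a (n + 1) : ℝ) : ℂ) + z)) z) := by
    have e2 : ∀ n : ℕ, (TT (fun _ => ((1 / (2 * ((n : ℝ) + 1)) : ℝ) : ℂ)) z -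
        TT (fun z => 1 / (((bk a (n + 1) : ℝ) : ℂ) + z)) z) =
        2 / (1 - z ^ 2) * (((1 / (2 * ((n : ℝ) + 1)) : ℝ) : ℂ) - 1 / (((bk a (n + 1) : ℝ) : ℂ) + z)) -
        1 / (1 - z) * (((1 / (2 * ((n : ℝ) + 1)) : ℝ) : ℂ) - 1 / (((bk a (n + 1) : ℝ) : ℂ) + 1)) := by
      intro n
      unfold TT
      ring
    rw [tsum_congr e2, Summable.tsum_sub (s1.mul_left _) (s2.mul_left _), tsum_mul_left, tsum_mul_left]
    unfold TT
    beta_reduce
    rw [g1, g2]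
    ring
  have e3 : ∀ n : ℕ, (TT (fun _ => ((1 / (2 * ((n : ℝ) + 1)) : ℝ) : ℂ)) z -
      TT (fun z => 1 / (((bk a (n + 1) : ℝ) : ℂ) + z)) z) =
      1 / (1 + z) * ck a n + dk a (n + 1) / (((bk a (n + 1) : ℝ) : ℂ) + z) := by
    intro n
    rw [TT_const h1' h2', hp]
    unfold ck
    push_cast
    ring
  have sd : Summable (fun k : ℕ => dk a k / (((bk a k : ℝ) : ℂ) + z)) := by
    refine Summable.of_norm_bounded ((dk_sum ha).mul_right (1 / z.re)) fun k => ?_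
    rw [norm_div, div_eq_mul_one_div]
    refine mul_le_mul_of_nonneg_left (one_div_le_one_div_of_le hz ?_) (norm_nonneg _)
    have h := Complex.re_le_norm (((bk a k : ℝ) : ℂ) + z)
    rw [Complex.add_re, Complex.ofReal_re] at h
    have hb : 0 < bk a k := by
      unfold bk
      positivity
    linarith
  have sd1 : Summable (fun n : ℕ => dk a (n + 1) / (((bk a (n + 1) : ℝ) : ℂ) + z)) := (summable_nat_add_iff 1).2 sd
  rw [e1, tsum_congr e3, Summable.tsum_add ((ck_sum ha ha1).mul_left _) sd1, tsum_mul_left, TT_const h1' h2', hp,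
    sd.tsum_eq_zero_add]
  ring

end gamma

end Pool.Agent.Q14.LQ
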