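import Pool.Agent.Q14.LQ.EF2
import Pool.Agent.Q119.HV.Zdb

set_option autoImplicit false

/-! Project LQ (helper253), job EF: the completed L-function; the primitive character. -/

namespace Pool.Agent.Q14.LQ

open MeasureTheory Complex Filter Topology Set
open DirichletCharacter (LFunction completedLFunction)
open Pool.Agent.Q253.LQ

theorem half_re' : ((1 : ℂ) / 2).re = 1 / 2 := by norm_num

theorem LF_one {N : ℕ} [NeZero N] (hN : N = 1) (ψ : DirichletCharacter ℂ N) : LFunction ψ = riemannZeta := by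
  subst hN
  exact DirichletCharacter.LFunction_modOne_eq

theorem GR_diff {s : ℂ} (hs : 0 < s.re) : DifferentiableAt ℂ Gammaℝ s := by
  have hG : Gammaℝ s ≠ 0 := Gammaℝ_ne_zero_of_re_pos hs
  have h := (differentiable_Gammaℝ_inv s).inv (inv_ne_zero hG)
  have e : (fun s : ℂ => (Gammaℝ s)⁻¹)⁻¹ = Gammaℝ := by
    funext w
    simp
  rwa [e] at h

theorem xi_eq {s : ℂ} (hs : 1 < s.re) : xi s = (s * ((s - 1) * (Gammaℝ s * riemannZeta s))) / 2 := by
  have h0 : s ≠ 0 := by
    rintro rfl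
    simp at hs
    linarith
  have h1 : s ≠ 1 := by
    rintro rfl
    simp at hs
  have hG : Gammaℝ s ≠ 0 := Gammaℝ_ne_zero_of_re_pos (by linarith)
  have h2 := riemannZeta_def_of_ne_zero h0
  rw [eq_div_iff hG] at h2
  have h3 := completedRiemannZeta_eq s
  have h4 : 1 - s ≠ 0 := sub_ne_zero.2 (Ne.symm h1)
  have h5 : s * (s - 1) * completedRiemannZeta s = s * (s - 1) * completedRiemannZeta₀ s + 1 := by
    rw [h3]
    field_simp
    ring
  unfold xi
  have h6 : s * ((s - 1) * (Gammaℝ s * riemannZeta s)) = s * (s - 1) * completedRiemannZeta s := by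
    rw [← h2]
    ring
  rw [h6, h5]
  ring

theorem logDeriv_xi {s : ℂ} (hs : 1 < s.re) :
    logDeriv xi s = 1 / s + 1 / (s - 1) + logDeriv Gammaℝ s + logDeriv riemannZeta s := by
  have h0 : s ≠ 0 := by
    rintro rfl
    simp at hs
    linarith
  have h1 : s ≠ 1 := by
    rintro rfl
    simp at hs
  have h1' : s - 1 ≠ 0 := sub_ne_zero.2 h1
  have hG : Gammaℝ s ≠ 0 := Gammaℝ_ne_zero_of_re_pos (by linarith)
  have hz : riemannZeta s ≠ 0 := riemannZeta_ne_zero_of_one_lt_re hs
  have hdG := GR_diff (s := s) (by linarith)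
  have hdz := differentiableAt_riemannZeta h1
  have hev : xi =ᶠ[𝓝 s] fun s => (1 / 2 : ℂ) * (s * ((s - 1) * (Gammaℝ s * riemannZeta s))) := by
    have hmem : {z : ℂ | 1 < z.re} ∈ 𝓝 s := (isOpen_lt continuous_const continuous_re).mem_nhds hs
    filter_upwards [hmem] with w hw
    rw [xi_eq hw]
    ring
  have e1 : logDeriv xi s = logDeriv (fun s => (1 / 2 : ℂ) * (s * ((s - 1) * (Gammaℝ s * riemannZeta s)))) s := by
    rw [logDeriv_apply, logDeriv_apply, hev.deriv_eq, hev.eq_of_nhds]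
  have d1 : DifferentiableAt ℂ (fun s : ℂ => s - 1) s := by fun_prop
  have l1 : logDeriv (fun s : ℂ => s) s = 1 / s := by
    rw [logDeriv_apply, deriv_id'']
  have l2 : logDeriv (fun s : ℂ => s - 1) s = 1 / (s - 1) := by
    rw [logDeriv_apply, deriv_sub_const, deriv_id'']
  have m3 := logDeriv_mul (f := Gammaℝ) (g := riemannZeta) s hG hz hdG hdz
  have m2 := logDeriv_mul (f := fun s : ℂ => s - 1) (g := fun s : ℂ => Gammaℝ s * riemannZeta s) s h1'
    (mul_ne_zero hG hz) d1 (hdG.mul hdz)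
  have m1 := logDeriv_mul (f := fun s : ℂ => s) (g := fun s : ℂ => (s - 1) * (Gammaℝ s * riemannZeta s)) s h0
    (mul_ne_zero h1' (mul_ne_zero hG hz)) differentiableAt_id (d1.mul (hdG.mul hdz))
  rw [e1, logDeriv_const_mul s (1 / 2 : ℂ) (by norm_num), m1, m2, m3, l1, l2]
  ring

section split

variable {q : ℕ} [NeZero q]

theorem cond_ne (χ : DirichletCharacter ℂ q) : NeZero χ.conductor := ⟨χ.conductor_ne_zero⟩

open Classical in
/-- the value one for the trivial character -/
noncomputable def P1 (χ : DirichletCharacter ℂ q) : ℂ := if χ = 1 then 1 else 0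

theorem aa_cases {N : ℕ} (ψ : DirichletCharacter ℂ N) :
    ∃ a : ℝ, (a = 0 ∨ a = 1) ∧ H370.DL.aa ψ = (a : ℂ) := by
  unfold H370.DL.aa
  split_ifs
  · exact ⟨0, Or.inl rfl, by simp⟩
  · exact ⟨1, Or.inr rfl, by simp⟩

theorem Xi_split (χ : DirichletCharacter ℂ q) [NeZero χ.conductor] : ∃ (a : ℝ) (K : ℂ), (a = 0 ∨ a = 1) ∧
    ∀ z : ℂ, 1 / 2 < z.re → Xi χ z = logDeriv (LFunction χ.primitiveCharacter) (1 / 2 + z) +
      (K + logDeriv Gammaℝ (1 / 2 + z + a) + P1 χ * (1 / (1 / 2 + z) + 1 / (-(1 / 2) + z))) := by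
  by_cases hχ : χ = 1
  · refine ⟨0, 0, Or.inl rfl, fun z hz => ?_⟩
    have hN : χ.conductor = 1 := DirichletCharacter.eq_one_iff_conductor_eq_one.1 hχ
    have hre : 1 < (1 / 2 + z).re := by
      rw [Complex.add_re, half_re']
      linarith
    have e1 : Xi χ z = logDeriv xi (1 / 2 + z) := by
      unfold Xi
      congr 1
      funext s
      unfold XL
      rw [if_pos hχ]
    rw [e1, logDeriv_xi hre, LF_one hN]
    unfold P1
    rw [if_pos hχ]
    have e2 : 1 / 2 + z - 1 = -(1 / 2) + z := by ring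
    rw [e2]
    push_cast
    rw [add_zero]
    ring
  · set ψ := χ.primitiveCharacter with hψdef
    have hψ : ψ.IsPrimitive := χ.primitiveCharacter_isPrimitive
    have hN : 1 < χ.conductor := by
      have h1 : χ.conductor ≠ 1 := fun h => hχ (DirichletCharacter.eq_one_iff_conductor_eq_one.2 h)
      have h2 := NeZero.ne χ.conductor
      omega
    obtain ⟨a, ha, haa⟩ := aa_cases ψ
    refine ⟨a, (1 / 2) * (Real.log χ.conductor : ℂ), ha, fun z hz => ?_⟩
    have hre : 1 < (1 / 2 + z).re := by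
      rw [Complex.add_re, half_re']
      linarith
    have hL : LFunction ψ (1 / 2 + z) ≠ 0 := by
      rw [DirichletCharacter.LFunction_eq_LSeries ψ hre]
      exact DirichletCharacter.LSeries_ne_zero_of_one_lt_re ψ hre
    have hX := Pool.Agent.Q119.HV.logDeriv_X hN hψ (z := z) (by linarith) hL
    have hc := Pool.Agent.Q119.HV.cc_ne hψ
    have hNc : (χ.conductor : ℂ) ≠ 0 := by exact_mod_cast NeZero.ne χ.conductor
    have hfun : (fun z : ℂ => XL χ (1 / 2 + z)) =
        fun z : ℂ => ((χ.conductor : ℂ) ^ (1 / 4 : ℂ) / Pool.Agent.Q119.HV.cc ψ) * Pool.Agent.Q119.HV.X ψ z := by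
      funext w
      unfold XL Pool.Agent.Q119.HV.X
      rw [if_neg hχ]
      have e1 : (χ.conductor : ℂ) ^ ((1 / 2 + w) / 2) = (χ.conductor : ℂ) ^ (1 / 4 : ℂ) * (χ.conductor : ℂ) ^ (w / 2) := by
        rw [← Complex.cpow_add _ _ hNc]
        congr 1
        ring
      rw [e1]
      field_simp
      rfl
    have e1 : Xi χ z = logDeriv (fun z : ℂ => XL χ (1 / 2 + z)) z := by
      unfold Xi
      rw [logDeriv_apply, logDeriv_apply, deriv_comp_const_add]
    rw [e1, hfun, logDeriv_const_mul z _ (div_ne_zero (by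
      rw [Ne, cpow_eq_zero_iff]
      exact fun h => hNc h.1) hc), hX, haa]
    unfold P1
    rw [if_neg hχ]
    ring

end split

end Pool.Agent.Q14.LQ
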