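import Pool.Agent.Q14.LQ.EF3

set_option autoImplicit false

/-! Project LQ (helper253), job EF: the prime powers dividing the modulus. -/

namespace Pool.Agent.Q14.LQ

open MeasureTheory Complex Filter Topology Set
open DirichletCharacter (LFunction completedLFunction)
open Pool.Agent.Q253.LQ

open Classical in
/-- the powers of one prime -/
noncomputable def fp (p : ℕ) (n : ℕ) : ℝ :=
  if ∃ k : ℕ, n = p ^ (k + 1) then Real.log p * Real.exp (-(1 / 4 * Real.log n)) else 0

theorem fp_nonneg {p : ℕ} (_hp : p.Prime) (n : ℕ) : 0 ≤ fp p n := by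
  unfold fp
  split_ifs
  · exact mul_nonneg (Real.log_natCast_nonneg p) (Real.exp_pos _).le
  · exact le_rfl

theorem fp_summable {p : ℕ} (hp : p.Prime) : Summable (fp p) := by
  have hinj : Function.Injective (fun k : ℕ => p ^ (k + 1)) := by
    intro a b hab
    have := Nat.pow_right_injective hp.two_le hab
    omega
  rw [← hinj.summable_iff (f := fp p)]
  · have e : (fp p ∘ fun k : ℕ => p ^ (k + 1)) =
        fun k : ℕ => (Real.log p * Real.exp (-(1 / 4 * Real.log p))) * (Real.exp (-(1 / 4 * Real.log p))) ^ k := by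
      funext k
      simp only [Function.comp_apply, fp]
      rw [if_pos ⟨k, rfl⟩]
      push_cast
      rw [Real.log_pow, mul_assoc, ← Real.exp_nat_mul, ← Real.exp_add]
      congr 2
      push_cast
      ring
    rw [e]
    refine Summable.mul_left _ (summable_geometric_of_lt_one (Real.exp_pos _).le ?_)
    rw [Real.exp_lt_one_iff]
    have : 0 < Real.log p := Real.log_pos (by exact_mod_cast hp.one_lt)
    linarith
  · intro n hn
    unfold fp
    rw [if_neg]
    rintro ⟨k, rfl⟩
    exact hn ⟨k, rfl⟩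

theorem diff_le {q : ℕ} [NeZero q] (χ : DirichletCharacter ℂ q) [NeZero χ.conductor] (n : ℕ) :
    ‖bc χ n - bc χ.primitiveCharacter n‖ * Real.exp (1 / 4 * Real.log n) ≤
      2 * ∑ p ∈ q.primeFactors, fp p n := by
  have hsum : 0 ≤ ∑ p ∈ q.primeFactors, fp p n :=
    Finset.sum_nonneg fun p hp => fp_nonneg (Nat.prime_of_mem_primeFactors hp) n
  by_cases hco : Nat.Coprime n q
  · have h1 : χ.primitiveCharacter (n : ZMod χ.conductor) = χ (n : ZMod q) := by
      have h2 : IsCoprime ((n : ℤ)) (q : ℤ) := Nat.isCoprime_iff_coprime.2 hco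
      have := χ.primitiveCharacter_apply_of_isCoprime h2
      simpa using this
    have h2 : bc χ n - bc χ.primitiveCharacter n = 0 := by
      unfold bc
      rw [h1]
      ring
    rw [h2, norm_zero, zero_mul]
    positivity
  · by_cases hL : ArithmeticFunction.vonMangoldt n = 0
    · have h2 : bc χ n - bc χ.primitiveCharacter n = 0 := by
        unfold bc
        rw [hL]
        simp
      rw [h2, norm_zero, zero_mul]
      positivity
    · have hpp : IsPrimePow n := by
        by_contra h
        exact hL (ArithmeticFunction.vonMangoldt_eq_zero_iff.2 h)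
      obtain ⟨p, k, hp, hk, rfl⟩ := (isPrimePow_nat_iff _).1 hpp
      have hpq : p ∣ q := by
        by_contra h
        exact hco (Nat.Coprime.pow_left k ((Nat.Prime.coprime_iff_not_dvd hp).2 h))
      have hmem : p ∈ q.primeFactors := Nat.mem_primeFactors.2 ⟨hp, hpq, NeZero.ne q⟩
      have hval : fp p (p ^ k) = Real.log p * Real.exp (-(1 / 4 * Real.log ((p ^ k : ℕ) : ℝ))) := by
        unfold fp
        rw [if_pos ⟨k - 1, by rw [Nat.sub_add_cancel hk]⟩]
      have h3 : fp p (p ^ k) ≤ ∑ p' ∈ q.primeFactors, fp p' (p ^ k) :=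
        Finset.single_le_sum (f := fun p' => fp p' (p ^ k))
          (fun p' hp' => fp_nonneg (Nat.prime_of_mem_primeFactors hp') _) hmem
      have hLam : ArithmeticFunction.vonMangoldt (p ^ k) = Real.log p := by
        rw [ArithmeticFunction.vonMangoldt_apply_pow (by omega), ArithmeticFunction.vonMangoldt_apply_prime hp]
      have h4 : ‖bc χ (p ^ k) - bc χ.primitiveCharacter (p ^ k)‖ ≤
          2 * (Real.log p * Real.exp (-(Real.log ((p ^ k : ℕ) : ℝ) / 2))) := by
        have h5 := bc_le χ (p ^ k)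
        have h6 := bc_le χ.primitiveCharacter (p ^ k)
        rw [hLam] at h5 h6
        have h7 := norm_sub_le (bc χ (p ^ k)) (bc χ.primitiveCharacter (p ^ k))
        linarith
      calc ‖bc χ (p ^ k) - bc χ.primitiveCharacter (p ^ k)‖ * Real.exp (1 / 4 * Real.log ((p ^ k : ℕ) : ℝ)) ≤
            (2 * (Real.log p * Real.exp (-(Real.log ((p ^ k : ℕ) : ℝ) / 2)))) *
              Real.exp (1 / 4 * Real.log ((p ^ k : ℕ) : ℝ)) := mul_le_mul_of_nonneg_right h4 (Real.exp_pos _).le
        _ = 2 * (Real.log p * (Real.exp (-(Real.log ((p ^ k : ℕ) : ℝ) / 2)) *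
              Real.exp (1 / 4 * Real.log ((p ^ k : ℕ) : ℝ)))) := by ring
        _ = 2 * fp p (p ^ k) := by
            rw [hval, ← Real.exp_add]
            congr 3
            ring
        _ ≤ _ := by linarith

theorem ES_diff {q : ℕ} [NeZero q] (χ : DirichletCharacter ℂ q) [NeZero χ.conductor] :
    ∃ C : ℝ, 0 ≤ C ∧ ∀ u : ℝ, ‖ES (bc χ) u - ES (bc χ.primitiveCharacter) u‖ ≤ C * Real.exp (-(u / 4)) := by
  have hs : Summable (fun n : ℕ => ‖bc χ n - bc χ.primitiveCharacter n‖ * Real.exp (1 / 4 * Real.log n)) := by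
    refine Summable.of_nonneg_of_le (fun n => by positivity) (diff_le χ) (Summable.mul_left 2 ?_)
    exact summable_sum fun p hp => fp_summable (Nat.prime_of_mem_primeFactors hp)
  refine ⟨∑' n : ℕ, ‖bc χ n - bc χ.primitiveCharacter n‖ * Real.exp (1 / 4 * Real.log n),
    tsum_nonneg fun n => by positivity, fun u => ?_⟩
  have e1 : ES (bc χ) u - ES (bc χ.primitiveCharacter) u =
      ∑' n : ℕ, (bc χ n - bc χ.primitiveCharacter n) * ((Real.exp (-|u - Real.log n|) : ℝ) : ℂ) := by
    unfold ES
    rw [← Summable.tsum_sub (ES_summable (HB_bc χ) u).of_norm (ES_summable (HB_bc χ.primitiveCharacter) u).of_norm]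
    refine tsum_congr fun n => ?_
    ring
  have h1 : ∀ n : ℕ, ‖(bc χ n - bc χ.primitiveCharacter n) * ((Real.exp (-|u - Real.log n|) : ℝ) : ℂ)‖ ≤
      (‖bc χ n - bc χ.primitiveCharacter n‖ * Real.exp (1 / 4 * Real.log n)) * Real.exp (-(u / 4)) := by
    intro n
    rw [norm_mul, Complex.norm_real, Real.norm_of_nonneg (Real.exp_pos _).le, mul_assoc, ← Real.exp_add]
    refine mul_le_mul_of_nonneg_left (Real.exp_le_exp.2 ?_) (norm_nonneg _)
    have h2 : u - Real.log n ≤ |u - Real.log n| := le_abs_self _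
    have h3 : 0 ≤ |u - Real.log n| := abs_nonneg _
    linarith
  have h2 := hs.mul_right (Real.exp (-(u / 4)))
  have h3 : Summable (fun n : ℕ => ‖(bc χ n - bc χ.primitiveCharacter n) * ((Real.exp (-|u - Real.log n|) : ℝ) : ℂ)‖) :=
    Summable.of_nonneg_of_le (fun _ => norm_nonneg _) h1 h2
  rw [e1, ← tsum_mul_right]
  exact (norm_tsum_le_tsum_norm h3).trans (h3.tsum_le_tsum h1 h2)

end Pool.Agent.Q14.LQ
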