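import Pool.Agent.Q14.LQ.LA2
import Pool.Agent.Q14.LQ.CL

set_option autoImplicit false

/-! Project LQ (helper253), job LA. -/

namespace Pool.Agent.Q14.LQ

open MeasureTheory Complex Filter Topology Set
open DirichletCharacter (LFunction completedLFunction LFunctionTrivChar₁ LFunctionTrivChar)
open Pool.Agent.Q253.LQ

variable {q : ℕ} [NeZero q]

open Classical in
/-- the factors without poles -/
noncomputable def Mx (χ : DirichletCharacter ℂ q) (s : ℂ) : ℂ :=
  if χ = 1 then LFunctionTrivChar₁ q s else LFunction χ s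

theorem Mx_diff (χ : DirichletCharacter ℂ q) : Differentiable ℂ (Mx χ) := by
  by_cases h : χ = 1
  · have e : Mx χ = LFunctionTrivChar₁ q := by
      funext s
      unfold Mx
      rw [if_pos h]
    rw [e]
    exact DirichletCharacter.differentiable_LFunctionTrivChar₁ q
  · have e : Mx χ = LFunction χ := by
      funext s
      unfold Mx
      rw [if_neg h]
    rw [e]
    exact DirichletCharacter.differentiable_LFunction h

theorem Mx_ne (χ : DirichletCharacter ℂ q) {s : ℂ} (hs : s ≠ 1) : Mx χ s = 0 ↔ LFunction χ s = 0 := by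
  by_cases h : χ = 1
  · subst h
    unfold Mx
    rw [if_pos rfl]
    unfold LFunctionTrivChar₁
    rw [Function.update_of_ne hs]
    have : s - 1 ≠ 0 := sub_ne_zero.2 hs
    constructor
    · intro h1
      exact (mul_eq_zero.1 h1).resolve_left this
    · intro h1
      exact mul_eq_zero.2 (Or.inr h1)
  · unfold Mx
    rw [if_neg h]

theorem LF_ne {χ : DirichletCharacter ℂ q} {s : ℂ} (hs : 1 < s.re) : LFunction χ s ≠ 0 := by
  rw [DirichletCharacter.LFunction_eq_LSeries χ hs]
  exact DirichletCharacter.LSeries_ne_zero_of_one_lt_re χ hs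

open Classical in
theorem Mx_log (χ : DirichletCharacter ℂ q) {s : ℂ} (hs : 1 < s.re) :
    logDeriv (Mx χ) s = logDeriv (LFunction χ) s + if χ = 1 then 1 / (s - 1) else 0 := by
  have hs1 : s ≠ 1 := by
    rintro rfl
    simp at hs
  by_cases h : χ = 1
  · subst h
    have e : Mx (1 : DirichletCharacter ℂ q) = LFunctionTrivChar₁ q := by
      funext s
      unfold Mx
      rw [if_pos rfl]
    have h0 : LFunction (1 : DirichletCharacter ℂ q) s ≠ 0 := LF_ne hs
    have h1 : s - 1 ≠ 0 := sub_ne_zero.2 hs1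
    rw [if_pos rfl, e, logDeriv_apply, logDeriv_apply, DirichletCharacter.deriv_LFunctionTrivChar₁_apply_of_ne_one q hs1]
    have e2 : LFunctionTrivChar₁ q s = (s - 1) * LFunction (1 : DirichletCharacter ℂ q) s := by
      unfold LFunctionTrivChar₁
      rw [Function.update_of_ne hs1]
    rw [e2]
    have e3 : LFunctionTrivChar q = LFunction (1 : DirichletCharacter ℂ q) := rfl
    rw [e3]
    field_simp
  · have e : Mx χ = LFunction χ := by
      funext s
      unfold Mx
      rw [if_neg h]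
    rw [e, if_neg h, add_zero]

/-- the product -/
noncomputable def Ex (q : ℕ) [NeZero q] (s : ℂ) : ℂ := ∏ χ : DirichletCharacter ℂ q, Mx χ s

theorem Ex_diff : Differentiable ℂ (Ex q) := by
  have h := Differentiable.fun_finsetProd (𝕜 := ℂ) (u := (Finset.univ : Finset (DirichletCharacter ℂ q)))
    (f := fun χ => Mx χ) fun χ _ => Mx_diff χ
  exact h

theorem Mx_ne' (χ : DirichletCharacter ℂ q) {s : ℂ} (hs : 1 < s.re) : Mx χ s ≠ 0 := by
  have hs1 : s ≠ 1 := by
    rintro rfl
    simp at hs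
  rw [Ne, Mx_ne χ hs1]
  exact LF_ne hs

theorem Ex_log {s : ℂ} (hs : 1 < s.re) :
    deriv (Ex q) s = ((∑ χ : DirichletCharacter ℂ q, logDeriv (LFunction χ) s) + 1 / (s - 1)) * Ex q s := by
  classical
  have h1 := logDeriv_prod (𝕜 := ℂ) (𝕜' := ℂ) (s := (Finset.univ : Finset (DirichletCharacter ℂ q)))
    (f := fun χ => Mx χ) (x := s) (fun χ _ => Mx_ne' χ hs) (fun χ _ => Mx_diff χ s)
  have h2 : logDeriv (Ex q) s = ∑ χ : DirichletCharacter ℂ q, logDeriv (Mx χ) s := h1
  have h3 : Ex q s ≠ 0 := Finset.prod_ne_zero_iff.2 fun χ _ => Mx_ne' χ hs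
  rw [logDeriv_apply, div_eq_iff h3] at h2
  rw [h2]
  congr 1
  rw [Finset.sum_congr rfl fun χ _ => Mx_log χ hs, Finset.sum_add_distrib]
  congr 1
  rw [Finset.sum_ite_eq' Finset.univ (1 : DirichletCharacter ℂ q)]
  simp

theorem DS_be {z : ℂ} (hz : 1 / 2 < z.re) :
    (Nat.totient q : ℂ) * DS (be q) z = -∑ χ : DirichletCharacter ℂ q, logDeriv (LFunction χ) (1 / 2 + z) := by
  rw [← Finset.sum_neg_distrib, ← Finset.sum_congr rfl fun χ _ => DS_bc χ hz]
  unfold DS
  rw [← Summable.tsum_finsetSum fun χ _ => DS_summable (HB_bc χ) hz, ← tsum_mul_left]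
  refine tsum_congr fun n => ?_
  rw [← Finset.sum_mul, sum_bc, mul_assoc]

omit [NeZero q] in
theorem LT_EE {z : ℂ} (hz : 1 < z.re) :
    lp (fun u => -EE q u) z = 8 / 3 / (z - 1 / 2) - (Nat.totient q : ℂ) *
      (2 / (1 - z ^ 2) * DS (be q) z - 1 / (1 - z) * DS (be q) 1) := by
  have h1 : z ≠ 1 := by
    rintro rfl
    simp at hz
  have hre : (-(z - 1 / 2)).re < 0 := by
    rw [Complex.neg_re, Complex.sub_re]
    have : ((1 : ℂ) / 2).re = 1 / 2 := by norm_num
    rw [this]
    linarith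
  have i1 := (integrableOn_exp_mul_complex_Ioi hre 0).const_mul (8 / 3 : ℂ)
  have i2 := (LT_intble (HB_be q) (z := z) (by linarith)).const_mul (Nat.totient q : ℂ)
  have e : lp (fun u => -EE q u) z = ∫ u in Ioi (0 : ℝ), ((8 / 3 : ℂ) * cexp (-(z - 1 / 2) * u) -
      (Nat.totient q : ℂ) * (ES (be q) u * cexp (-z * u))) := by
    unfold lp
    refine setIntegral_congr_fun measurableSet_Ioi fun u _ => ?_
    simp only
    rw [Complex.ofReal_neg, EE_eq]
    have e1 : cexp (-(z - 1 / 2) * u) = cexp ((u / 2 : ℝ) : ℂ) * cexp (-z * u) := by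
      rw [← Complex.exp_add]
      congr 1
      push_cast
      ring
    rw [e1, Complex.ofReal_mul, Complex.ofReal_exp]
    push_cast
    ring
  rw [e, integral_sub i1 i2, integral_const_mul, integral_const_mul, LT_ES (HB_be q) (by linarith) h1,
    integral_exp_mul_complex_Ioi hre]
  congr 1
  rw [Complex.ofReal_zero, mul_zero, Complex.exp_zero, neg_div_neg_eq]
  ring

theorem key_id {z : ℂ} (hz : 1 < z.re) :
    (1 - z ^ 2) * lp (fun u => -EE q u) z * Ex q (1 / 2 + z) =
      2 * deriv (fun z => Ex q (1 / 2 + z)) z -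
        (8 / 3 * (z + 1 / 2) + (1 + z) * (∑ χ : DirichletCharacter ℂ q, logDeriv (LFunction χ) (1 / 2 + 1))) *
        Ex q (1 / 2 + z) := by
  have hre : 1 < (1 / 2 + z).re := by
    rw [Complex.add_re]
    have : ((1 : ℂ) / 2).re = 1 / 2 := by norm_num
    rw [this]
    linarith
  have hd : deriv (fun z => Ex q (1 / 2 + z)) z = deriv (Ex q) (1 / 2 + z) := by
    have h1 : HasDerivAt (fun z : ℂ => 1 / 2 + z) 1 z := (hasDerivAt_id z).const_add (1 / 2)
    have h2 := HasDerivAt.comp (h₂ := Ex q) z (Ex_diff (1 / 2 + z)).hasDerivAt h1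
    have h3 : HasDerivAt (fun z => Ex q (1 / 2 + z)) (deriv (Ex q) (1 / 2 + z) * 1) z := h2
    rw [h3.deriv, mul_one]
  rw [hd, Ex_log hre, LT_EE hz, mul_sub (Nat.totient q : ℂ)]
  have e1 := DS_be (q := q) (z := z) (by linarith)
  have e2 := DS_be (q := q) (z := 1) (by norm_num)
  have e3 : (Nat.totient q : ℂ) * (2 / (1 - z ^ 2) * DS (be q) z) = 2 / (1 - z ^ 2) *
      ((Nat.totient q : ℂ) * DS (be q) z) := by ring
  have e4 : (Nat.totient q : ℂ) * (1 / (1 - z) * DS (be q) 1) = 1 / (1 - z) *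
      ((Nat.totient q : ℂ) * DS (be q) 1) := by ring
  rw [e3, e4, e1, e2]
  have n1 : z - 1 / 2 ≠ 0 := by
    intro h
    have := congrArg Complex.re h
    rw [Complex.sub_re] at this
    norm_num at this
    linarith
  have n2 : 1 - z ≠ 0 := by
    intro h
    have := congrArg Complex.re h
    simp at this
    linarith
  have n3 : 1 + z ≠ 0 := by
    intro h
    have := congrArg Complex.re h
    simp at this
    linarith
  have n4 : 1 - z ^ 2 ≠ 0 := by
    have : 1 - z ^ 2 = (1 - z) * (1 + z) := by ring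
    rw [this]
    exact mul_ne_zero n2 n3
  have n5 : (1 / 2 + z) - 1 ≠ 0 := by
    have : (1 / 2 + z) - 1 = z - 1 / 2 := by ring
    rw [this]
    exact n1
  have e5 : (1 : ℂ) / (1 - z) = (1 + z) / (1 - z ^ 2) := by
    have : 1 - z ^ 2 = (1 - z) * (1 + z) := by ring
    rw [this]
    field_simp
  rw [e5]
  have e6 : (1 / 2 + z) - 1 = z - 1 / 2 := by ring
  rw [e6]
  generalize (∑ χ : DirichletCharacter ℂ q, logDeriv (LFunction χ) (1 / 2 + z)) = S
  generalize (∑ χ : DirichletCharacter ℂ q, logDeriv (LFunction χ) (1 / 2 + 1)) = T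
  generalize Ex q (1 / 2 + z) = X
  set w : ℂ := z - 1 / 2 with hw
  have hz' : z = w + 1 / 2 := by rw [hw]; ring
  have e7 : (1 - z ^ 2) * (8 / 3 / w - (2 / (1 - z ^ 2) * (-S) - (1 + z) / (1 - z ^ 2) * (-T))) =
      (1 - z ^ 2) * (8 / 3 / w) + 2 * S - (1 + z) * T := by
    field_simp
    ring
  rw [e7]
  have e8 : (1 - z ^ 2) * (8 / 3 / w) = 2 * (1 / w) - 8 / 3 * (z + 1 / 2) := by
    rw [hz']
    field_simp
    ring
  rw [e8]
  ring

/-- LQ-LA -/
theorem t_LA : S_LA := by
  intro q _ lam hlam ⟨C, hC⟩ χ s hs1 hs2 h0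
  have hc : Continuous (fun u => -EE q u) := (EE_cont q).neg
  have hp : ∀ σ : ℝ, 0 < σ → IntegrableOn (fun u => max (-EE q u) 0 * Real.exp (-(σ * u))) (Ioi 0) := by
    intro σ hσ
    refine int_of_bound (hc.max continuous_const) (fun u => le_max_right _ _) (C := C / lam) ?_ hσ
    filter_upwards [hC, eventually_ge_atTop 0] with U hU hU0
    have h1 : ∀ u : ℝ, lam * max (-EE q u) 0 ≤ Real.exp (-(lam * EE q u)) := by
      intro u
      rcases le_total 0 (-EE q u) with h | h
      · rw [max_eq_left h]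
        have := Real.add_one_le_exp (-(lam * EE q u))
        linarith
      · rw [max_eq_right h, mul_zero]
        exact (Real.exp_pos _).le
    have c1 : Continuous (fun u => lam * max (-EE q u) 0) := continuous_const.mul (hc.max continuous_const)
    have c2 : Continuous (fun u => Real.exp (-(lam * EE q u))) :=
      Real.continuous_exp.comp (continuous_const.mul (EE_cont q)).neg
    have h2 : ∫ u in (0 : ℝ)..U, lam * max (-EE q u) 0 ≤ ∫ u in (0 : ℝ)..U, Real.exp (-(lam * EE q u)) :=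
      intervalIntegral.integral_mono_on hU0 (c1.intervalIntegrable _ _) (c2.intervalIntegrable _ _) fun u _ => h1 u
    rw [intervalIntegral.integral_const_mul] at h2
    rw [div_mul_eq_mul_div, le_div_iff₀ hlam]
    linarith
  have hm : ∀ σ : ℝ, 1 / 2 < σ → IntegrableOn (fun u => max (-(-EE q u)) 0 * Real.exp (-(σ * u))) (Ioi 0) := by
    intro σ hσ
    have hre : (-(((σ : ℝ) : ℂ) - 1 / 2)).re < 0 := by
      rw [Complex.neg_re, Complex.sub_re, Complex.ofReal_re]
      have : ((1 : ℂ) / 2).re = 1 / 2 := by norm_num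
      rw [this]
      linarith
    have i1 := (integrableOn_exp_mul_complex_Ioi hre 0).const_mul (8 / 3 : ℂ)
    have i2 := (LT_intble (HB_be q) (z := (σ : ℂ)) (by rw [Complex.ofReal_re]; exact hσ)).const_mul (Nat.totient q : ℂ)
    have i3 := (i2.sub i1).norm
    refine Integrable.mono' i3 ((((hc.neg).max continuous_const).mul (by fun_prop)).aestronglyMeasurable)
      (Eventually.of_forall fun u => ?_)
    rw [Real.norm_of_nonneg (mul_nonneg (le_max_right _ _) (Real.exp_pos _).le), neg_neg]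
    have e1 : ((Nat.totient q : ℂ) * (ES (be q) u * cexp (-(σ : ℂ) * u)) -
        (8 / 3 : ℂ) * cexp (-((σ : ℂ) - 1 / 2) * u)) = ((EE q u * Real.exp (-(σ * u)) : ℝ) : ℂ) := by
      rw [Complex.ofReal_mul, EE_eq]
      have e1 : cexp (-((σ : ℂ) - 1 / 2) * u) = cexp ((u / 2 : ℝ) : ℂ) * cexp (-(σ : ℂ) * u) := by
        rw [← Complex.exp_add]
        congr 1
        push_cast
        ring
      have e2 : ((Real.exp (-(σ * u)) : ℝ) : ℂ) = cexp (-(σ : ℂ) * u) := by
        rw [Complex.ofReal_exp]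
        congr 1
        push_cast
        ring
      rw [e1, e2, Complex.ofReal_mul, Complex.ofReal_exp]
      push_cast
      ring
    simp only [Pi.sub_apply]
    rw [e1, Complex.norm_real, Real.norm_eq_abs, abs_mul, abs_of_pos (Real.exp_pos _)]
    refine mul_le_mul_of_nonneg_right ?_ (Real.exp_pos _).le
    exact max_le (le_abs_self _) (abs_nonneg _)
  have hE : Differentiable ℂ (fun z => Ex q (1 / 2 + z)) :=
    (Ex_diff (q := q)).comp (by fun_prop : Differentiable ℂ (fun z : ℂ => 1 / 2 + z))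
  have key := LA_abs (f := fun u => -EE q u) hc hp hm (E := fun z => Ex q (1 / 2 + z))
    (H := fun z => 8 / 3 * (z + 1 / 2) + (1 + z) *
      (∑ χ : DirichletCharacter ℂ q, logDeriv (LFunction χ) (1 / 2 + 1))) hE (by fun_prop)
    ⟨1, Finset.prod_ne_zero_iff.2 fun χ _ => Mx_ne' χ (by norm_num)⟩ (fun z hz => key_id hz) (s - 1 / 2) (by
      rw [Complex.sub_re]
      have : ((1 : ℂ) / 2).re = 1 / 2 := by norm_num
      rw [this]
      linarith)
  refine key ?_
  have hs : s ≠ 1 := by
    rintro rfl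
    simp at hs2
  have e : 1 / 2 + (s - 1 / 2) = s := by ring
  rw [e]
  exact Finset.prod_eq_zero (Finset.mem_univ χ) ((Mx_ne χ hs).2 h0)

end Pool.Agent.Q14.LQ
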