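import Mathlib

set_option autoImplicit false

/-! Project LQ (helper253): Landau's theorem for Laplace transforms of nonnegative functions. -/

namespace Pool.Agent.Q14.LQ

open MeasureTheory Complex Filter Topology Set ProbabilityTheory
open scoped Nat

/-- Landau's theorem in the language of moment generating functions -/
theorem landau_mgf {Ω : Type} [MeasurableSpace Ω] {μ : Measure Ω} {Y : Ω → ℝ} (hY : ∀ᵐ ω ∂μ, 0 ≤ Y ω)
    {v R r : ℝ} (hv : v ∈ interior (integrableExpSet Y μ)) {G : ℂ → ℂ}
    (hG : DifferentiableOn ℂ G (Metric.ball (v : ℂ) R))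
    (heq : ∀ᶠ t : ℝ in 𝓝 v, (G t).re = mgf Y μ t) (hr0 : 0 ≤ r) (hr : r < R) :
    v + r ∈ integrableExpSet Y μ := by
  have hR : 0 < R := by linarith
  set m : ℕ → ℝ := fun n => μ[fun ω => Y ω ^ n * Real.exp (v * Y ω)] with hm
  have hP := hasFPowerSeriesAt_mgf hv
  set a : ℕ → ℝ := fun n => ((n ! : ℂ)⁻¹ * iteratedDeriv n G v).re with ha
  have hT : ∀ t : ℝ, |t - v| < R → HasSum (fun n : ℕ => (t - v) ^ n * a n) (G t).re := by
    intro t ht
    have h1 := Complex.hasSum_taylorSeries_on_ball (c := (v : ℂ)) (r := R.toNNReal) (f := G) (by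
      rw [Real.coe_toNNReal _ hR.le]
      exact hG) (z := (t : ℂ)) (by
      rw [Real.coe_toNNReal _ hR.le, Metric.mem_ball, dist_eq_norm]
      rw [← Complex.ofReal_sub, Complex.norm_real, Real.norm_eq_abs]
      exact ht)
    have h2 := Complex.hasSum_re h1
    refine h2.congr_fun ?_ |> fun h => h
    intro n
    rw [ha]
    simp only [smul_eq_mul]
    have e : ((n ! : ℂ)⁻¹ * (((t : ℂ) - v) ^ n * iteratedDeriv n G v)) =
        (((t - v) ^ n : ℝ) : ℂ) * ((n ! : ℂ)⁻¹ * iteratedDeriv n G v) := by
      push_cast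
      ring
    rw [e, Complex.re_ofReal_mul]
  have hQ : HasFPowerSeriesAt (mgf Y μ) (FormalMultilinearSeries.ofScalars ℝ a) v := by
    rw [hasFPowerSeriesAt_iff']
    have hball : ∀ᶠ t : ℝ in 𝓝 v, |t - v| < R := by
      have := Metric.ball_mem_nhds v hR
      filter_upwards [this] with t ht
      rwa [Metric.mem_ball, Real.dist_eq] at ht
    filter_upwards [heq, hball] with t h1 h2
    rw [← h1]
    have h3 := hT t h2
    simpa [FormalMultilinearSeries.coeff_ofScalars] using h3
  have hE := hP.eq_formalMultilinearSeries hQ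
  have hco : ∀ n : ℕ, a n = m n / (n ! : ℝ) := by
    intro n
    have := congrArg (fun p => p.coeff n) hE
    simp only [FormalMultilinearSeries.coeff_ofScalars] at this
    exact this.symm
  have hs : Summable (fun n : ℕ => r ^ n * (m n / (n ! : ℝ))) := by
    have h1 := (hT (v + r) (by rw [add_sub_cancel_left, abs_of_nonneg hr0]; exact hr)).summable
    refine h1.congr fun n => ?_
    rw [add_sub_cancel_left, hco n]
  have hmeas := aemeasurable_of_mem_interior_integrableExpSet hv
  have hint : ∀ n : ℕ, Integrable (fun ω => Y ω ^ n * Real.exp (v * Y ω)) μ := fun n =>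
    integrable_pow_mul_exp_of_mem_interior_integrableExpSet hv n
  have hterm : ∀ n : ℕ, ∫⁻ ω, ENNReal.ofReal ((r ^ n / (n ! : ℝ)) * (Y ω ^ n * Real.exp (v * Y ω))) ∂μ =
      ENNReal.ofReal (r ^ n * (m n / (n ! : ℝ))) := by
    intro n
    rw [← ofReal_integral_eq_lintegral_ofReal ((hint n).const_mul _), integral_const_mul]
    · congr 1
      rw [hm]
      ring
    · filter_upwards [hY] with ω hω
      simp only [Pi.zero_apply]
      positivity
  show Integrable (fun ω => Real.exp ((v + r) * Y ω)) μ
  refine ⟨(Real.measurable_exp.comp_aemeasurable (hmeas.const_mul _)).aestronglyMeasurable, ?_⟩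
  rw [hasFiniteIntegral_iff_ofReal (Eventually.of_forall fun ω => (Real.exp_pos _).le)]
  have hpt : ∀ᵐ ω ∂μ, ENNReal.ofReal (Real.exp ((v + r) * Y ω)) =
      ∑' n : ℕ, ENNReal.ofReal ((r ^ n / (n ! : ℝ)) * (Y ω ^ n * Real.exp (v * Y ω))) := by
    filter_upwards [hY] with ω hω
    have h1 : HasSum (fun n : ℕ => (r * Y ω) ^ n / (n ! : ℝ)) (Real.exp (r * Y ω)) := by
      have := NormedSpace.expSeries_div_hasSum_exp (r * Y ω)
      rwa [← Real.exp_eq_exp_ℝ] at this
    have h2 := h1.mul_right (Real.exp (v * Y ω))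
    have h3 : HasSum (fun n : ℕ => (r ^ n / (n ! : ℝ)) * (Y ω ^ n * Real.exp (v * Y ω)))
        (Real.exp ((v + r) * Y ω)) := by
      have e : Real.exp ((v + r) * Y ω) = Real.exp (r * Y ω) * Real.exp (v * Y ω) := by
        rw [← Real.exp_add]
        congr 1
        ring
      rw [e]
      refine h2.congr_fun ?_ |> fun h => h
      intro n
      rw [mul_pow]
      ring
    rw [← h3.tsum_eq, ENNReal.ofReal_tsum_of_nonneg (fun n => by positivity) h3.summable]
  rw [lintegral_congr_ae hpt, lintegral_tsum fun n => ?_]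
  · simp_rw [hterm]
    rw [← ENNReal.ofReal_tsum_of_nonneg (fun n => ?_) hs]
    · exact ENNReal.ofReal_lt_top
    · have : 0 ≤ m n := by
        rw [hm]
        refine integral_nonneg_of_ae ?_
        filter_upwards [hY] with ω hω
        simp only [Pi.zero_apply]
        positivity
      positivity
  · exact ((hint n).aestronglyMeasurable.aemeasurable.const_mul _).ennreal_ofReal

end Pool.Agent.Q14.LQ
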