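import Pool.Agent.Q253.LQ.Stm

set_option autoImplicit false

/-! Project LQ (helper253): the Laplace transform of sums with the kernel `exp (-|u - log n|)`. -/

namespace Pool.Agent.Q14.LQ

open MeasureTheory Complex Filter Topology Set
open DirichletCharacter (LFunction completedLFunction)
open Pool.Agent.Q253.LQ

/-- sums with the two-sided exponential kernel -/
noncomputable def ES (b : ℕ → ℂ) (u : ℝ) : ℂ := ∑' n : ℕ, b n * ((Real.exp (-|u - Real.log n|) : ℝ) : ℂ)

/-- the growth condition -/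
def HB (b : ℕ → ℂ) : Prop := ∀ x : ℝ, 1 / 2 < x → Summable (fun n : ℕ => ‖b n‖ * Real.exp (-(x * Real.log n)))

theorem ker_le {x : ℝ} (hx0 : 0 ≤ x) (hx : x ≤ 1) (u v : ℝ) :
    Real.exp (-|u - v|) ≤ Real.exp (x * u) * Real.exp (-(x * v)) := by
  rw [← Real.exp_add]
  apply Real.exp_le_exp.2
  have h1 : -(u - v) ≤ |u - v| := neg_le_abs _
  have h2 : 0 ≤ |u - v| := abs_nonneg _
  have h3 : x * |u - v| ≤ |u - v| := by nlinarith
  have h4 : x * (-(u - v)) ≤ x * |u - v| := mul_le_mul_of_nonneg_left h1 hx0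
  linarith

theorem term_le {b : ℕ → ℂ} {x : ℝ} (hx0 : 0 ≤ x) (hx : x ≤ 1) (u : ℝ) (n : ℕ) :
    ‖b n * ((Real.exp (-|u - Real.log n|) : ℝ) : ℂ)‖ ≤ Real.exp (x * u) * (‖b n‖ * Real.exp (-(x * Real.log n))) := by
  rw [norm_mul, Complex.norm_real, Real.norm_of_nonneg (Real.exp_pos _).le]
  calc ‖b n‖ * Real.exp (-|u - Real.log n|) ≤ ‖b n‖ * (Real.exp (x * u) * Real.exp (-(x * Real.log n))) :=
        mul_le_mul_of_nonneg_left (ker_le hx0 hx _ _) (norm_nonneg _)
    _ = _ := by ring

theorem ES_summable {b : ℕ → ℂ} (hb : HB b) (u : ℝ) :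
    Summable (fun n : ℕ => ‖b n * ((Real.exp (-|u - Real.log n|) : ℝ) : ℂ)‖) :=
  Summable.of_nonneg_of_le (fun _ => norm_nonneg _) (fun n => term_le (x := 1) zero_le_one le_rfl u n)
    ((hb 1 (by norm_num)).mul_left _)

theorem ES_bound {b : ℕ → ℂ} (hb : HB b) {x : ℝ} (hx0 : 1 / 2 < x) (hx : x ≤ 1) (u : ℝ) :
    ‖ES b u‖ ≤ (∑' n : ℕ, ‖b n‖ * Real.exp (-(x * Real.log n))) * Real.exp (x * u) := by
  have h1 := (hb x hx0).mul_left (Real.exp (x * u))
  calc ‖ES b u‖ ≤ ∑' n : ℕ, ‖b n * ((Real.exp (-|u - Real.log n|) : ℝ) : ℂ)‖ :=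
        norm_tsum_le_tsum_norm (ES_summable hb u)
    _ ≤ ∑' n : ℕ, Real.exp (x * u) * (‖b n‖ * Real.exp (-(x * Real.log n))) :=
        (ES_summable hb u).tsum_le_tsum (fun n => term_le (by linarith) hx u n) h1
    _ = _ := by rw [tsum_mul_left, mul_comm]

theorem ES_cont {b : ℕ → ℂ} (hb : HB b) : Continuous (ES b) := by
  rw [continuous_iff_continuousAt]
  intro u
  have h1 : ContinuousOn (ES b) (Iio (u + 1)) := by
    unfold ES
    refine continuousOn_tsum (u := fun n => Real.exp (1 * (u + 1)) * (‖b n‖ * Real.exp (-(1 * Real.log n))))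
      (fun n => ?_) ((hb 1 (by norm_num)).mul_left _) (fun n y hy => ?_)
    · apply Continuous.continuousOn
      fun_prop
    · refine (term_le (x := 1) zero_le_one le_rfl y n).trans ?_
      have hy' : y < u + 1 := hy
      gcongr
  exact h1.continuousAt (Iio_mem_nhds (by linarith))

theorem base_intble {z : ℂ} (hz : 0 < z.re) (v : ℝ) :
    IntegrableOn (fun u : ℝ => ((Real.exp (-|u - v|) : ℝ) : ℂ) * cexp (-z * u)) (Ioi 0) := by
  have h1 : IntegrableOn (fun u : ℝ => cexp (-z * u)) (Ioi 0) :=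
    integrableOn_exp_mul_complex_Ioi (by simpa using hz) 0
  refine Integrable.mono' h1.norm ?_ (Eventually.of_forall fun u => ?_)
  · apply Continuous.aestronglyMeasurable
    fun_prop
  · rw [norm_mul, Complex.norm_real, Real.norm_of_nonneg (Real.exp_pos _).le]
    have : Real.exp (-|u - v|) ≤ 1 := Real.exp_le_one_iff.2 (by simp)
    have h2 := norm_nonneg (cexp (-z * u))
    nlinarith

theorem base_int {z : ℂ} (hz : 0 < z.re) (h1 : z ≠ 1) {v : ℝ} (hv : 0 ≤ v) :
    ∫ u in Ioi (0 : ℝ), ((Real.exp (-|u - v|) : ℝ) : ℂ) * cexp (-z * u) =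
      2 / (1 - z ^ 2) * cexp (-z * v) - 1 / (1 - z) * cexp (-v) := by
  have h1' : 1 - z ≠ 0 := sub_ne_zero.2 (Ne.symm h1)
  have h2' : 1 + z ≠ 0 := by
    intro h
    have := congrArg Complex.re h
    simp at this
    linarith
  have h3' : 1 - z ^ 2 ≠ 0 := by
    have : 1 - z ^ 2 = (1 - z) * (1 + z) := by ring
    rw [this]
    exact mul_ne_zero h1' h2'
  have hI := base_intble hz v
  rw [← Ioc_union_Ioi_eq_Ioi hv, setIntegral_union (Ioc_disjoint_Ioi le_rfl) measurableSet_Ioi
    (hI.mono_set Ioc_subset_Ioi_self) (hI.mono_set (Ioi_subset_Ioi hv))]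
  have e1 : ∫ u in Ioc (0 : ℝ) v, ((Real.exp (-|u - v|) : ℝ) : ℂ) * cexp (-z * u) =
      ∫ u in Ioc (0 : ℝ) v, cexp (-v) * cexp ((1 - z) * u) := by
    refine setIntegral_congr_fun measurableSet_Ioc fun u hu => ?_
    have : |u - v| = v - u := by
      rw [abs_of_nonpos (by linarith [hu.2])]
      ring
    simp only [this]
    rw [Complex.ofReal_exp, ← Complex.exp_add, ← Complex.exp_add]
    congr 1
    push_cast
    ring
  have e2 : ∫ u in Ioi v, ((Real.exp (-|u - v|) : ℝ) : ℂ) * cexp (-z * u) =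
      ∫ u in Ioi v, cexp v * cexp (-(1 + z) * u) := by
    refine setIntegral_congr_fun measurableSet_Ioi fun u hu => ?_
    have hu' : v < u := hu
    have : |u - v| = u - v := abs_of_nonneg (by linarith)
    simp only [this]
    rw [Complex.ofReal_exp, ← Complex.exp_add, ← Complex.exp_add]
    congr 1
    push_cast
    ring
  rw [e1, e2, integral_const_mul, integral_const_mul, integral_exp_mul_complex_Ioi (by simp; linarith),
    ← intervalIntegral.integral_of_le hv, integral_exp_mul_complex h1']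
  have e3 : cexp (-v) * cexp ((1 - z) * v) = cexp (-z * v) := by
    rw [← Complex.exp_add]
    congr 1
    ring
  have e4 : cexp v * cexp (-(1 + z) * v) = cexp (-z * v) := by
    rw [← Complex.exp_add]
    congr 1
    ring
  have e5 : cexp ((1 - z) * ((0 : ℝ) : ℂ)) = 1 := by simp
  rw [e5]
  have h4' : 1 - z ^ 2 = (1 - z) * (1 + z) := by ring
  rw [h4']
  have h5' : -(1 + z) ≠ 0 := neg_ne_zero.2 h2'
  generalize cexp (-z * v) = A at *
  generalize cexp ((1 - z) * v) = B at *
  generalize cexp (-(1 + z) * v) = D at *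
  generalize cexp (-(v : ℂ)) = P at *
  generalize cexp (v : ℂ) = R at *
  field_simp
  linear_combination (1 + z) * e3 + (1 - z) * e4

theorem LT_intble {b : ℕ → ℂ} (hb : HB b) {z : ℂ} (hz : 1 / 2 < z.re) :
    IntegrableOn (fun u : ℝ => ES b u * cexp (-z * u)) (Ioi 0) := by
  set x : ℝ := min ((z.re + 1 / 2) / 2) 1 with hx
  have hx1 : x ≤ 1 := min_le_right _ _
  have hx2 : 1 / 2 < x := lt_min (by linarith) (by norm_num)
  have hx3 : x < z.re := (min_le_left _ _).trans_lt (by linarith)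
  have h1 : IntegrableOn (fun u : ℝ => (∑' n : ℕ, ‖b n‖ * Real.exp (-(x * Real.log n))) *
      Real.exp ((-(z.re - x)) * u)) (Ioi 0) := (integrableOn_exp_mul_Ioi (by linarith) 0).const_mul _
  refine Integrable.mono' h1 ?_ (Eventually.of_forall fun u => ?_)
  · exact ((ES_cont hb).mul (by fun_prop)).aestronglyMeasurable
  · rw [norm_mul, Complex.norm_exp]
    have e : (-z * (u : ℂ)).re = -z.re * u := by simp
    rw [e]
    calc ‖ES b u‖ * Real.exp (-z.re * u) ≤
          ((∑' n : ℕ, ‖b n‖ * Real.exp (-(x * Real.log n))) * Real.exp (x * u)) * Real.exp (-z.re * u) :=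
          mul_le_mul_of_nonneg_right (ES_bound hb hx2 hx1 u) (Real.exp_pos _).le
      _ = _ := by
          rw [mul_assoc, ← Real.exp_add]
          congr 2
          ring

/-- the Dirichlet series -/
noncomputable def DS (b : ℕ → ℂ) (z : ℂ) : ℂ := ∑' n : ℕ, b n * cexp (-z * Real.log n)

theorem DS_norm (b : ℕ → ℂ) (z : ℂ) (n : ℕ) :
    ‖b n * cexp (-z * Real.log n)‖ = ‖b n‖ * Real.exp (-(z.re * Real.log n)) := by
  rw [norm_mul, Complex.norm_exp]
  congr 2
  rw [Complex.re_mul_ofReal, Complex.neg_re]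
  ring

theorem DS_summable {b : ℕ → ℂ} (hb : HB b) {z : ℂ} (hz : 1 / 2 < z.re) :
    Summable (fun n : ℕ => b n * cexp (-z * Real.log n)) := by
  refine Summable.of_norm ?_
  simp_rw [DS_norm]
  exact hb _ hz

theorem LT_ES {b : ℕ → ℂ} (hb : HB b) {z : ℂ} (hz : 1 / 2 < z.re) (h1 : z ≠ 1) :
    ∫ u in Ioi (0 : ℝ), ES b u * cexp (-z * u) = 2 / (1 - z ^ 2) * DS b z - 1 / (1 - z) * DS b 1 := by
  set x : ℝ := min ((z.re + 1 / 2) / 2) 1 with hx
  have hx1 : x ≤ 1 := min_le_right _ _
  have hx2 : 1 / 2 < x := lt_min (by linarith) (by norm_num)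
  have hx3 : x < z.re := (min_le_left _ _).trans_lt (by linarith)
  have hI : ∀ n : ℕ, Integrable (fun u : ℝ => (b n * ((Real.exp (-|u - Real.log n|) : ℝ) : ℂ)) * cexp (-z * u))
      (volume.restrict (Ioi 0)) := by
    intro n
    have h := (base_intble (z := z) (by linarith) (Real.log n)).const_mul (b n)
    simp_rw [mul_assoc]
    exact h
  have hK : IntegrableOn (fun u : ℝ => Real.exp ((-(z.re - x)) * u)) (Ioi 0) :=
    integrableOn_exp_mul_Ioi (by linarith) 0
  have hS : Summable (fun n : ℕ => ∫ u in Ioi (0 : ℝ),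
      ‖(b n * ((Real.exp (-|u - Real.log n|) : ℝ) : ℂ)) * cexp (-z * u)‖) := by
    refine Summable.of_nonneg_of_le (fun n => integral_nonneg fun u => norm_nonneg _) (fun n => ?_)
      ((hb x hx2).mul_right (∫ u in Ioi (0 : ℝ), Real.exp ((-(z.re - x)) * u)))
    rw [← integral_const_mul]
    refine integral_mono (hI n).norm (hK.const_mul _) fun u => ?_
    simp only
    rw [norm_mul, Complex.norm_exp]
    have e : (-z * (u : ℂ)).re = -z.re * u := by simp
    rw [e]
    calc ‖b n * ((Real.exp (-|u - Real.log n|) : ℝ) : ℂ)‖ * Real.exp (-z.re * u) ≤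
          (Real.exp (x * u) * (‖b n‖ * Real.exp (-(x * Real.log n)))) * Real.exp (-z.re * u) :=
          mul_le_mul_of_nonneg_right (term_le (by linarith) hx1 u n) (Real.exp_pos _).le
      _ = (‖b n‖ * Real.exp (-(x * Real.log n))) * (Real.exp (x * u) * Real.exp (-z.re * u)) := by ring
      _ = _ := by
          rw [← Real.exp_add]
          congr 2
          ring
  have key := integral_tsum_of_summable_integral_norm hI hS
  have e1 : ∀ u : ℝ, ∑' n : ℕ, (b n * ((Real.exp (-|u - Real.log n|) : ℝ) : ℂ)) * cexp (-z * u) =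
      ES b u * cexp (-z * u) := by
    intro u
    unfold ES
    rw [tsum_mul_right]
  simp_rw [e1] at key
  rw [← key]
  have e2 : ∀ n : ℕ, ∫ u in Ioi (0 : ℝ), (b n * ((Real.exp (-|u - Real.log n|) : ℝ) : ℂ)) * cexp (-z * u) =
      2 / (1 - z ^ 2) * (b n * cexp (-z * Real.log n)) - 1 / (1 - z) * (b n * cexp (-1 * Real.log n)) := by
    intro n
    simp_rw [mul_assoc]
    rw [integral_const_mul, base_int (by linarith) h1 (Real.log_natCast_nonneg n)]
    have : (-1 : ℂ) * (Real.log n : ℂ) = -(Real.log n : ℂ) := by ring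
    rw [this]
    ring
  simp_rw [e2]
  rw [Summable.tsum_sub ((DS_summable hb hz).mul_left _)
    ((DS_summable hb (z := 1) (by norm_num)).mul_left _), tsum_mul_left, tsum_mul_left]
  rfl

/-- the coefficients of a character -/
noncomputable def bc {q : ℕ} [NeZero q] (χ : DirichletCharacter ℂ q) (n : ℕ) : ℂ :=
  ((ArithmeticFunction.vonMangoldt n : ℝ) : ℂ) * χ (n : ZMod q) * ((Real.exp (-(Real.log n / 2)) : ℝ) : ℂ)

theorem Lam_summable {x : ℝ} (hx : 1 / 2 < x) :
    Summable (fun n : ℕ => ArithmeticFunction.vonMangoldt n * Real.exp (-((x + 1 / 2) * Real.log n))) := by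
  have h := ArithmeticFunction.LSeriesSummable_vonMangoldt (s := ((x + 1 / 2 : ℝ) : ℂ))
    (by rw [Complex.ofReal_re]; linarith)
  unfold LSeriesSummable at h
  refine h.norm.congr fun n => ?_
  rcases Nat.eq_zero_or_pos n with rfl | hn
  · simp
  · rw [LSeries.term_of_ne_zero hn.ne', norm_div, Complex.norm_real,
      Real.norm_of_nonneg ArithmeticFunction.vonMangoldt_nonneg, Complex.norm_natCast_cpow_of_pos hn,
      Complex.ofReal_re, Real.rpow_def_of_pos (by exact_mod_cast hn), div_eq_mul_inv, ← Real.exp_neg]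
    congr 2
    ring

theorem HB_of_le {b : ℕ → ℂ} {C : ℝ} (h : ∀ n, ‖b n‖ ≤ C * (ArithmeticFunction.vonMangoldt n * Real.exp (-(Real.log n / 2)))) :
    HB b := by
  intro x hx
  refine Summable.of_nonneg_of_le (fun n => by positivity) (fun n => ?_) ((Lam_summable hx).mul_left C)
  calc ‖b n‖ * Real.exp (-(x * Real.log n)) ≤ (C * (ArithmeticFunction.vonMangoldt n *
        Real.exp (-(Real.log n / 2)))) * Real.exp (-(x * Real.log n)) :=
        mul_le_mul_of_nonneg_right (h n) (Real.exp_pos _).le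
    _ = C * (ArithmeticFunction.vonMangoldt n * (Real.exp (-(Real.log n / 2)) * Real.exp (-(x * Real.log n)))) := by
        ring
    _ = _ := by
        rw [← Real.exp_add]
        congr 3
        ring

variable {q : ℕ} [NeZero q]

theorem bc_le (χ : DirichletCharacter ℂ q) (n : ℕ) :
    ‖bc χ n‖ ≤ 1 * (ArithmeticFunction.vonMangoldt n * Real.exp (-(Real.log n / 2))) := by
  unfold bc
  rw [norm_mul, norm_mul, Complex.norm_real, Complex.norm_real, Real.norm_of_nonneg (Real.exp_pos _).le,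
    Real.norm_of_nonneg ArithmeticFunction.vonMangoldt_nonneg, one_mul]
  have h1 := χ.norm_le_one (n : ZMod q)
  have h2 : 0 ≤ ArithmeticFunction.vonMangoldt n := ArithmeticFunction.vonMangoldt_nonneg
  calc ArithmeticFunction.vonMangoldt n * ‖χ (n : ZMod q)‖ * Real.exp (-(Real.log n / 2)) ≤
        ArithmeticFunction.vonMangoldt n * 1 * Real.exp (-(Real.log n / 2)) := by gcongr
    _ = _ := by ring

theorem HB_bc (χ : DirichletCharacter ℂ q) : HB (bc χ) := HB_of_le (bc_le χ)

theorem EC_eq (χ : DirichletCharacter ℂ q) (u : ℝ) :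
    EC χ u = ES (bc χ) u - (open Classical in if χ = 1 then ((8 / 3 * Real.exp (u / 2) : ℝ) : ℂ) else 0) := by
  unfold EC ES bc
  congr 1
  refine tsum_congr fun n => ?_
  push_cast
  ring

theorem DS_bc (χ : DirichletCharacter ℂ q) {z : ℂ} (hz : 1 / 2 < z.re) :
    DS (bc χ) z = -logDeriv (LFunction χ) (1 / 2 + z) := by
  have hs : 1 < (1 / 2 + z).re := by
    rw [Complex.add_re]
    have : ((1 : ℂ) / 2).re = 1 / 2 := by norm_num
    rw [this]
    linarith
  have h2 := DirichletCharacter.LSeries_twist_vonMangoldt_eq χ hs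
  rw [logDeriv_apply, DirichletCharacter.deriv_LFunction_eq_deriv_LSeries χ hs,
    DirichletCharacter.LFunction_eq_LSeries χ hs, ← neg_div]
  rw [← h2]
  unfold DS LSeries
  refine tsum_congr fun n => ?_
  rcases Nat.eq_zero_or_pos n with rfl | hn
  · simp [bc]
  · have hn' : (n : ℂ) ≠ 0 := by exact_mod_cast hn.ne'
    rw [LSeries.term_of_ne_zero hn.ne', Pi.mul_apply, Complex.cpow_def_of_ne_zero hn', div_eq_mul_inv,
      ← Complex.exp_neg]
    unfold bc
    rw [Complex.ofReal_exp, ← Complex.natCast_log]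
    have e : cexp (-((Real.log n : ℂ) * (1 / 2 + z))) = cexp (((-(Real.log n / 2) : ℝ) : ℂ)) * cexp (-z * Real.log n) := by
      rw [← Complex.exp_add]
      congr 1
      push_cast
      ring
    rw [e]
    ring

end Pool.Agent.Q14.LQ
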