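import Pool.Agent.Q253.LQ.Stm
import Pool.Agent.H855R2.SF.Dir

set_option autoImplicit false

/-! Project LQ (helper253), job SY: conjugation and multiplicities. -/

namespace Pool.Agent.Q14.LQ

open Complex Filter Topology Set
open DirichletCharacter (LFunction completedLFunction)
open Pool.Agent.Q253.LQ
open scoped ComplexConjugate

theorem ord_conj_le {f g : ℂ → ℂ} {z : ℂ} (hf : AnalyticAt ℂ f z) (hg : AnalyticAt ℂ g (conj z))
    (h : ∀ᶠ w in 𝓝 (conj z), g w = conj (f (conj w))) (n : ℕ) (hn : (n : ℕ∞) ≤ analyticOrderAt f z) :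
    (n : ℕ∞) ≤ analyticOrderAt g (conj z) := by
  rw [natCast_le_analyticOrderAt hf] at hn
  rw [natCast_le_analyticOrderAt hg]
  obtain ⟨u, hu, hev⟩ := hn
  have hc : Tendsto (fun w : ℂ => conj w) (𝓝 (conj z)) (𝓝 z) := by
    have : ContinuousAt (fun w : ℂ => conj w) (conj z) := Complex.continuous_conj.continuousAt
    simpa [ContinuousAt] using this
  refine ⟨fun w => conj (u (conj w)), ?_, ?_⟩
  · have h3 : ∀ᶠ w in 𝓝 z, DifferentiableAt ℂ u w :=
      hu.eventually_analyticAt.mono fun w hw => hw.differentiableAt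
    have h4 : ∀ᶠ w in 𝓝 (conj z), DifferentiableAt ℂ (fun w => conj (u (conj w))) w := by
      filter_upwards [hc.eventually h3] with w hw
      exact (differentiableAt_conj_conj_iff).2 hw
    exact Complex.analyticAt_iff_eventually_differentiableAt.2 h4
  · filter_upwards [hc.eventually hev, h] with w hw hw2
    rw [hw2, hw]
    simp [smul_eq_mul, map_mul, map_pow, map_sub]

theorem ord_conj {f g : ℂ → ℂ} {z : ℂ} (hf : AnalyticAt ℂ f z) (hg : AnalyticAt ℂ g (conj z))
    (h : ∀ᶠ w in 𝓝 (conj z), g w = conj (f (conj w))) :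
    analyticOrderNatAt g (conj z) = analyticOrderNatAt f z := by
  unfold analyticOrderNatAt
  congr 1
  refine le_antisymm ?_ ?_
  · refine ENat.forall_natCast_le_iff_le.1 fun n hn => ?_
    have hf' : AnalyticAt ℂ f (conj (conj z)) := by rwa [conj_conj]
    have h1 := ord_conj_le hg hf' (by
      rw [conj_conj]
      have hc : Tendsto (fun w : ℂ => conj w) (𝓝 z) (𝓝 (conj z)) := Complex.continuous_conj.continuousAt
      filter_upwards [hc.eventually h] with w hw
      rw [hw, conj_conj, conj_conj]) n hn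
    rwa [conj_conj] at h1
  · exact ENat.forall_natCast_le_iff_le.1 fun n hn => ord_conj_le hf hg h n hn

theorem LF_an {q : ℕ} [NeZero q] (χ : DirichletCharacter ℂ q) {s : ℂ} (hs : s ≠ 1) :
    AnalyticAt ℂ (LFunction χ) s := by
  rw [Complex.analyticAt_iff_eventually_differentiableAt]
  filter_upwards [isOpen_ne.mem_nhds hs] with w hw
  exact DirichletCharacter.differentiableAt_LFunction χ w (Or.inl hw)

/-- LQ-SY -/
theorem t_SY : S_SY := by
  intro q _ χ γ
  unfold mc
  have e : (1 / 2 + ((-γ : ℝ) : ℂ) * I) = conj (1 / 2 + (γ : ℂ) * I) := by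
    rw [map_add, map_mul, map_div₀, map_one, map_ofNat, conj_ofReal, conj_I]
    push_cast
    ring
  have h1 : (1 / 2 + (γ : ℂ) * I) ≠ 1 := by
    intro h
    have := congrArg Complex.re h
    norm_num at this
  have h2 : conj (1 / 2 + (γ : ℂ) * I) ≠ 1 := by
    intro h
    have := congrArg Complex.re h
    norm_num at this
  rw [e]
  refine ord_conj (LF_an χ⁻¹ h1) (LF_an χ h2) ?_
  filter_upwards [isOpen_ne.mem_nhds h2] with w hw
  have h3 := H370.DL.LFunction_conj χ w hw
  rw [h3, conj_conj]

end Pool.Agent.Q14.LQ
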